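import Pool.Agent.BSR.Stmts

/-!
# Batch scheduling on a linear array: lower bounds for the optimum (helper74)
-/

set_option autoImplicit false

namespace Pool.Agent.BSR

open Finset

namespace AREaux

/-- the schedule which runs the jobs one after the other -/
noncomputable def seq {n : ℕ} (t : Fin n → ℝ) : Schedule n where
  start j := ∑ i ∈ (univ : Finset (Fin n)).filter fun i => i < j, t i
  pos _ := 0

theorem seq_lt {n : ℕ} {t : Fin n → ℝ} (ht : ∀ j, 0 ≤ t j) {i j : Fin n} (h : i < j) :
    (seq t).start i + t i ≤ (seq t).start j := by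
  show (∑ a ∈ (univ : Finset (Fin n)).filter fun a => a < i, t a) + t i ≤
    ∑ a ∈ (univ : Finset (Fin n)).filter fun a => a < j, t a
  have hi : i ∉ (univ : Finset (Fin n)).filter fun a => a < i := by simp
  have : (∑ a ∈ (univ : Finset (Fin n)).filter fun a => a < i, t a) + t i =
      ∑ a ∈ insert i ((univ : Finset (Fin n)).filter fun a => a < i), t a := by
    rw [Finset.sum_insert hi, add_comm]
  rw [this]
  refine Finset.sum_le_sum_of_subset_of_nonneg ?_ fun a _ _ => ht a
  intro a ha
  rw [Finset.mem_insert, Finset.mem_filter] at ha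
  rw [Finset.mem_filter]
  refine ⟨Finset.mem_univ _, ?_⟩
  rcases ha with rfl | ha
  · exact h
  · exact ha.2.trans h

theorem seq_feasible {m n : ℕ} {s : Fin n → ℕ} {t : Fin n → ℝ} (hs : ∀ j, s j ≤ m)
    (ht : ∀ j, 0 ≤ t j) : Feasible m s t (seq t) := by
  refine ⟨fun j => ?_, fun j => ?_, ?_⟩
  · show 0 ≤ ∑ a ∈ (univ : Finset (Fin n)).filter fun a => a < j, t a
    exact Finset.sum_nonneg fun i _ => ht i
  · show 0 + s j ≤ m
    rw [zero_add]
    exact hs j
  · intro i j hij τ h1 h2 h3 h4
    exfalso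
    rcases lt_or_gt_of_ne hij with h | h
    · have := seq_lt ht h
      linarith
    · have := seq_lt ht h
      linarith

theorem nonempty {m n : ℕ} {s : Fin n → ℕ} {t : Fin n → ℝ} (hs : ∀ j, s j ≤ m)
    (ht : ∀ j, 0 ≤ t j) :
    {x | ∃ σ : Schedule n, Feasible m s t σ ∧ makespan t σ = x}.Nonempty :=
  ⟨_, seq t, seq_feasible hs ht, rfl⟩

theorem le_make {n : ℕ} (t : Fin n → ℝ) (σ : Schedule n) (j : Fin n) :
    σ.start j + t j ≤ makespan t σ :=
  le_ciSup (f := fun j => σ.start j + t j) (Set.finite_range _).bddAbove j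

theorem make_nonneg {n : ℕ} {t : Fin n → ℝ} (ht : ∀ j, 0 ≤ t j) {σ : Schedule n}
    (h : ∀ j, 0 ≤ σ.start j) : 0 ≤ makespan t σ :=
  Real.iSup_nonneg fun j => add_nonneg (h j) (ht j)

open Classical in
/-- the jobs which run at the time `τ` need at most `m` machines -/
theorem width {m n : ℕ} {s : Fin n → ℕ} {t : Fin n → ℝ} {σ : Schedule n}
    (h : Feasible m s t σ) (τ : ℝ) :
    ∑ j ∈ (univ : Finset (Fin n)).filter (fun j => σ.start j ≤ τ ∧ τ < σ.start j + t j), s j
      ≤ m := by
  set R := (univ : Finset (Fin n)).filter (fun j => σ.start j ≤ τ ∧ τ < σ.start j + t j) with hR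
  have hd : (R : Set (Fin n)).PairwiseDisjoint fun j => Finset.Ico (σ.pos j) (σ.pos j + s j) := by
    intro i hi j hj hij
    rw [Finset.mem_coe, hR, Finset.mem_filter] at hi hj
    show Disjoint (Finset.Ico (σ.pos i) (σ.pos i + s i)) (Finset.Ico (σ.pos j) (σ.pos j + s j))
    rw [Finset.disjoint_left]
    intro a ha hb
    rw [Finset.mem_Ico] at ha hb
    rcases h.2.2 i j hij τ hi.2.1 hi.2.2 hj.2.1 hj.2.2 with h' | h' <;> omega
  have h1 : ∑ j ∈ R, s j = (R.biUnion fun j => Finset.Ico (σ.pos j) (σ.pos j + s j)).card := by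
    rw [Finset.card_biUnion hd]
    refine Finset.sum_congr rfl fun j _ => ?_
    rw [Nat.card_Ico]
    omega
  rw [h1]
  have h2 : (R.biUnion fun j => Finset.Ico (σ.pos j) (σ.pos j + s j)) ⊆ Finset.range m := by
    intro a ha
    rw [Finset.mem_biUnion] at ha
    obtain ⟨j, _, hj⟩ := ha
    rw [Finset.mem_Ico] at hj
    rw [Finset.mem_range]
    have := h.2.1 j
    omega
  calc (R.biUnion fun j => Finset.Ico (σ.pos j) (σ.pos j + s j)).card
      ≤ (Finset.range m).card := Finset.card_le_card h2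
    _ = m := Finset.card_range m

open MeasureTheory in
theorem area {m n : ℕ} {s : Fin n → ℕ} {t : Fin n → ℝ} (ht : ∀ j, 0 ≤ t j) {σ : Schedule n}
    (h : Feasible m s t σ) : ∑ j, (s j : ℝ) * t j ≤ m * makespan t σ := by
  classical
  set X := makespan t σ with hX
  have hX0 : 0 ≤ X := make_nonneg ht h.1
  set f : Fin n → ℝ → ℝ := fun j =>
    (Set.Ico (σ.start j) (σ.start j + t j)).indicator fun _ => (s j : ℝ) with hf
  have hI : ∀ j, IntegrableOn (f j) (Set.Icc 0 X) := by
    intro j
    refine (integrableOn_const (by simp)).indicator measurableSet_Ico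
  have hv : ∀ j, ∫ τ in Set.Icc 0 X, f j τ = (s j : ℝ) * t j := by
    intro j
    rw [hf]
    simp only
    rw [setIntegral_indicator measurableSet_Ico]
    have hsub : Set.Icc 0 X ∩ Set.Ico (σ.start j) (σ.start j + t j) =
        Set.Ico (σ.start j) (σ.start j + t j) := by
      apply Set.inter_eq_right.2
      intro τ hτ
      exact ⟨(h.1 j).trans hτ.1, hτ.2.le.trans (le_make t σ j)⟩
    rw [hsub, setIntegral_const, measureReal_def, Real.volume_Ico, smul_eq_mul,
      ENNReal.toReal_ofReal (by linarith [ht j])]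
    ring
  have hs : ∑ j, (s j : ℝ) * t j = ∫ τ in Set.Icc 0 X, ∑ j, f j τ := by
    rw [integral_finsetSum _ fun j _ => hI j]
    exact (Finset.sum_congr rfl fun j _ => hv j).symm
  have hm : ∫ τ in Set.Icc 0 X, ∑ j, f j τ ≤ ∫ _τ in Set.Icc 0 X, (m : ℝ) := by
    refine setIntegral_mono (integrable_finsetSum _ fun j _ => hI j)
      (integrableOn_const (by simp)) fun τ => ?_
    have e : ∑ j, f j τ = ((∑ j ∈ (univ : Finset (Fin n)).filter
        (fun j => σ.start j ≤ τ ∧ τ < σ.start j + t j), s j : ℕ) : ℝ) := by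
      rw [Nat.cast_sum, Finset.sum_filter]
      refine Finset.sum_congr rfl fun j _ => ?_
      rw [hf]
      simp only [Set.indicator_apply, Set.mem_Ico]
    show ∑ j, f j τ ≤ (m : ℝ)
    rw [e]
    exact_mod_cast width h τ
  rw [hs]
  refine hm.trans (le_of_eq ?_)
  rw [setIntegral_const, measureReal_def, Real.volume_Icc, smul_eq_mul,
    ENNReal.toReal_ofReal (by linarith)]
  ring

end AREaux

open AREaux

theorem x_ARE : S_ARE := by
  intro m n s t hs ht
  have hne := nonempty hs ht
  refine ⟨?_, fun j => ?_, ?_⟩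
  · refine le_csInf hne ?_
    rintro x ⟨σ, hσ, rfl⟩
    exact make_nonneg ht hσ.1
  · refine le_csInf hne ?_
    rintro x ⟨σ, hσ, rfl⟩
    exact le_trans (by linarith [hσ.1 j]) (le_make t σ j)
  · by_cases hm : m = 0
    · subst hm
      have : ∑ j, (s j : ℝ) * t j = 0 := by
        refine Finset.sum_eq_zero fun j _ => ?_
        have : s j = 0 := Nat.le_zero.1 (hs j)
        rw [this]
        simp
      rw [this]
      simp
    · have hm' : (0 : ℝ) < m := by exact_mod_cast Nat.pos_of_ne_zero hm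
      have : (∑ j, (s j : ℝ) * t j) / m ≤ OPT m s t := by
        refine le_csInf hne ?_
        rintro x ⟨σ, hσ, rfl⟩
        rw [div_le_iff₀ hm', mul_comm]
        exact area ht hσ
      rw [div_le_iff₀ hm'] at this
      linarith

end Pool.Agent.BSR
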