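import Pool.Agent.BSR.Stmts

/-!
# CON: list scheduling in one section is feasible
-/

set_option autoImplicit false

namespace Pool.Agent.BSR

namespace CONaux

theorem div_div_of_le (u : ℕ) {l L : ℕ} (h : l ≤ L) : u / 2 ^ L = u / 2 ^ l / 2 ^ (L - l) := by
  rw [Nat.div_div_eq_div_mul, ← pow_add, Nat.add_sub_cancel' h]

theorem fr_succ_pos {M : ℕ} {lv : ℕ → ℕ} {P : ℕ → Prop} {t : ℕ → ℝ} {j : ℕ} (h : P j) :
    fr M lv P t (j + 1) = stp M (fr M lv P t j) (lv j) (t j) := by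
  simp only [fr, if_pos h]

theorem fr_succ_neg {M : ℕ} {lv : ℕ → ℕ} {P : ℕ → Prop} {t : ℕ → ℝ} {j : ℕ} (h : ¬ P j) :
    fr M lv P t (j + 1) = fr M lv P t j := by
  simp only [fr, if_neg h]

/-- the free times are constant on the blocks of level at most the levels used so far -/
theorem fr_const (M : ℕ) (lv : ℕ → ℕ) (P : ℕ → Prop) (t : ℕ → ℝ) (l : ℕ) :
    ∀ j, (∀ i, i < j → l ≤ lv i) → ∀ u v, u / 2 ^ l = v / 2 ^ l →
      fr M lv P t j u = fr M lv P t j v := by
  intro j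
  induction j with
  | zero => intro _ u v _; rfl
  | succ j ih =>
    intro hl u v huv
    have ih' := ih (fun i hi => hl i (by omega))
    by_cases hP : P j
    · rw [fr_succ_pos hP]
      unfold stp
      have h1 := hl j (by omega)
      rw [div_div_of_le u h1, div_div_of_le v h1, huv, ih' u v huv]
    · rw [fr_succ_neg hP]
      exact ih' u v huv

theorem fr_const' {M : ℕ} {lv : ℕ → ℕ} (hS : Sec M lv) (P : ℕ → Prop) (t : ℕ → ℝ) (j : ℕ) :
    ∀ u v, u / 2 ^ lv j = v / 2 ^ lv j → fr M lv P t j u = fr M lv P t j v :=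
  fr_const M lv P t (lv j) j fun i hi => hS.anti i j hi.le

theorem fr_mono (h_MN : S_MN) {M : ℕ} {lv : ℕ → ℕ} (hS : Sec M lv) (P : ℕ → Prop) (t : ℕ → ℝ)
    (ht : ∀ j, 0 ≤ t j) (u : ℕ) : Monotone fun j => fr M lv P t j u := by
  refine monotone_nat_of_le_succ fun j => ?_
  by_cases hP : P j
  · rw [fr_succ_pos hP]
    exact (h_MN M (fr M lv P t j) hS.pos).2.2.2.2 (lv j) (t j) (ht j) (fr_const' hS P t j) u
  · rw [fr_succ_neg hP]

theorem fr_nonneg (h_MN : S_MN) {M : ℕ} {lv : ℕ → ℕ} (hS : Sec M lv) (P : ℕ → Prop) (t : ℕ → ℝ)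
    (ht : ∀ j, 0 ≤ t j) (j u : ℕ) : 0 ≤ fr M lv P t j u :=
  fr_mono h_MN hS P t ht u (Nat.zero_le j)

end CONaux

open CONaux

/-- MODULE CON -/
theorem x_CON (h_MN : S_MN) : S_CON := by
  intro M lv P t hS ht
  refine ⟨fun j => ?_, fun i j hij => ?_, fun j => ?_, fun i j hij hP hB => ?_⟩
  · exact (h_MN M (fr M lv P t j) hS.pos).2.2.2.1 0 fun u _ => fr_nonneg h_MN hS P t ht j u
  · refine (h_MN M (fr M lv P t j) hS.pos).2.2.2.1 _ fun u hu => ?_
    exact ((h_MN M (fr M lv P t i) hS.pos).1 u hu).trans (fr_mono h_MN hS P t ht u hij)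
  · have ha := (h_MN M (fr M lv P t j) hS.pos).2.1
    obtain ⟨q, hq⟩ := hS.dvd j
    have h1 : am M (fr M lv P t j) / 2 ^ lv j < q := by
      refine Nat.div_lt_of_lt_mul ?_
      rw [← hq]
      exact ha
    unfold Bk
    calc (am M (fr M lv P t j) / 2 ^ lv j + 1) * 2 ^ lv j ≤ q * 2 ^ lv j :=
          Nat.mul_le_mul_right _ h1
      _ = M := by rw [hq, mul_comm]
  · have h1 : lv j ≤ lv i := hS.anti i j hij.le
    have h2 : am M (fr M lv P t j) / 2 ^ lv i = am M (fr M lv P t i) / 2 ^ lv i := by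
      rw [div_div_of_le _ h1]
      exact hB
    have h3 : fr M lv P t (i + 1) (am M (fr M lv P t j)) = St M lv P t i + t i := by
      rw [fr_succ_pos hP]
      unfold stp
      rw [if_pos h2]
      rfl
    have h4 : fr M lv P t j (am M (fr M lv P t j)) = St M lv P t j :=
      (h_MN M (fr M lv P t j) hS.pos).2.2.1
    rw [← h3, ← h4]
    exact fr_mono h_MN hS P t ht _ hij

end Pool.Agent.BSR
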