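import Pool.Agent.BSR.Stmts

/-!
# MP_e25616_lc: the theorem for sorted jobs   (helper22)
-/

set_option autoImplicit false

namespace Pool.Agent.BSR

open Finset

namespace CORaux

/-- the scale factor is positive -/
theorem two_rpow_sub_pos (k : ℕ) (hk : 0 < k) : 0 < (2 : ℝ) ^ (1 / (k : ℝ)) - 1 := by
  have hk' : (0 : ℝ) < k := by exact_mod_cast hk
  have h : (1 : ℝ) < (2 : ℝ) ^ (1 / (k : ℝ)) :=
    Real.one_lt_rpow (by norm_num) (by positivity)
  linarith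

/-- the lower bound for the normalising sum -/
theorem Z_lower (k : ℕ) (hk : 0 < k) (h_GRD : S_GRD) (m : ℝ) (hm : 0 < m) (θ : ℝ) (hθ : 0 < θ)
    (M : Fin k → ℝ) (w : ℕ) (hw : 1 ≤ w) (hr : ∀ c : Fin k, 0 < rs k c)
    (hM : ∀ c : Fin k, m / k * θ ≤ rs k c * M c) :
    1 ≤ (∑ c : Fin k, M c / 2 ^ gl k c w) * (Kk k / θ * (w / m)) := by
  have hk' : (0 : ℝ) < k := by exact_mod_cast hk
  have hw' : (0 : ℝ) < w := by exact_mod_cast hw
  have hd := two_rpow_sub_pos k hk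
  have h1 := h_GRD k w hk hw
  rw [← Fin.sum_univ_eq_sum_range (fun c => 1 / (rs k c * 2 ^ gl k c w)) k] at h1
  have h2 : ∀ c : Fin k, m / k * θ * (1 / (rs k c * 2 ^ gl k c w)) ≤ M c / 2 ^ gl k c w := by
    intro c
    have h3 : (0 : ℝ) < 2 ^ gl k c w := by positivity
    have h4 := hr c
    rw [mul_one_div, div_le_div_iff₀ (by positivity) h3]
    have h5 := hM c
    have h6 := mul_le_mul_of_nonneg_right h5 h3.le
    nlinarith [h6]
  have h3 : m / k * θ * (1 / (2 * w * ((2 : ℝ) ^ (1 / (k : ℝ)) - 1))) ≤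
      ∑ c : Fin k, M c / 2 ^ gl k c w := by
    calc m / k * θ * (1 / (2 * w * ((2 : ℝ) ^ (1 / (k : ℝ)) - 1)))
        ≤ m / k * θ * ∑ c : Fin k, 1 / (rs k c * 2 ^ gl k c w) := by
          apply mul_le_mul_of_nonneg_left h1 (by positivity)
      _ = ∑ c : Fin k, m / k * θ * (1 / (rs k c * 2 ^ gl k c w)) := by
          rw [Finset.mul_sum]
      _ ≤ _ := Finset.sum_le_sum fun c _ => h2 c
  have h4 : 0 ≤ Kk k / θ * (w / m) := by
    unfold Kk
    positivity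
  have h5 := mul_le_mul_of_nonneg_right h3 h4
  have h6 : m / k * θ * (1 / (2 * w * ((2 : ℝ) ^ (1 / (k : ℝ)) - 1))) * (Kk k / θ * (w / m)) = 1 := by
    unfold Kk
    have hd' := hd.ne'
    field_simp
  linarith

end CORaux

open CORaux

/-- **COR.** -/
theorem x_COR (h_RUL : S_RUL) (h_PRS : S_PRS) (h_VAR : S_VAR) (h_GLB : S_GLB) (h_GRD : S_GRD)
    (h_ARE : S_ARE) (h_NUM : S_NUM) : S_COR := by
  intro m n k N₀ W s hk hN₀ hW hm hs hsW
  obtain ⟨ℓ, H, Q, hkℓ, hWH, hQ⟩ := h_NUM m k N₀ W hk (by omega) hW hm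
  have hk' : (0 : ℝ) < k := by exact_mod_cast hk
  have hN' : (2 : ℝ) ≤ N₀ := by exact_mod_cast hN₀
  have hN0 : (0 : ℝ) < N₀ := by linarith
  have hWm : W ≤ m := by
    have h1 : 1 ≤ 8 * k * N₀ := Nat.mul_pos (Nat.mul_pos (by norm_num) hk) (by omega)
    calc W = 1 * W := (one_mul _).symm
      _ ≤ 8 * k * N₀ * W := Nat.mul_le_mul_right _ h1
      _ ≤ m := hm
  have hmpos : (0 : ℝ) < m := by
    have : 0 < m := by omega
    exact_mod_cast this
  set θ : ℝ := (1 - 1 / (N₀ : ℝ)) ^ 2 with hθdef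
  have hθ : 0 < θ := by
    have h1 : 1 / (N₀ : ℝ) ≤ 1 / 2 := one_div_le_one_div_of_le (by norm_num) hN'
    have h2 : (0 : ℝ) < 1 - 1 / (N₀ : ℝ) := by linarith
    positivity
  set K : ℝ := Kk k / θ with hK
  have hd := two_rpow_sub_pos k hk
  have hK0 : 0 < K := by
    rw [hK]
    unfold Kk
    positivity
  -- the data
  have hr : ∀ c : Fin k, 0 < rs k c := fun c => by
    have := (h_GLB k c c.2).1
    linarith
  have hQpos : ∀ c : Fin k, 0 < Q c := fun c => by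
    have := (hQ c c.2).1
    omega
  have hMpos : ∀ c : Fin k, 0 < Q c * 2 ^ H := fun c =>
    Nat.mul_pos (hQpos c) (by positivity)
  have hMpos' : ∀ c : Fin k, (0 : ℝ) < ((Q c * 2 ^ H : ℕ) : ℝ) := fun c => by
    exact_mod_cast hMpos c
  have hsH : ∀ j, s j ≤ 2 ^ H := fun j => (hsW j).2.trans hWH
  have hgH : ∀ (c : Fin k) j, gl k c (s j) ≤ H := fun c j =>
    (h_GLB k c c.2).2.2.2.2.2 (s j) H (hsH j)
  choose A hA using fun φ : Fin n → Fin k =>
    h_RUL m n k ℓ s φ (fun c => rs k c) (fun c => Q c * 2 ^ H) (fun c => gl k c) hk hkℓ hs hr hMpos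
      (fun c => (hQ c c.2).2.1) (fun c => (h_GLB k c c.2).2.2.2.1)
      (fun c j => Dvd.dvd.mul_left (pow_dvd_pow 2 (hgH c j)) (Q c))
      (fun c j => (h_GLB k c c.2).2.2.1 (s j))
  -- the probabilities
  set Z : Fin n → ℝ := fun j => ∑ c : Fin k, ((Q c * 2 ^ H : ℕ) : ℝ) / 2 ^ gl k c (s j) with hZ
  have hterm : ∀ (j : Fin n) (c : Fin k), 0 < ((Q c * 2 ^ H : ℕ) : ℝ) / 2 ^ gl k c (s j) :=
    fun j c => div_pos (hMpos' c) (by positivity)
  have hZpos : ∀ j, 0 < Z j := fun j => by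
    have : Nonempty (Fin k) := ⟨⟨0, hk⟩⟩
    exact Finset.sum_pos (fun c _ => hterm j c) Finset.univ_nonempty
  set p : Fin n → Fin k → ℝ := fun j c =>
    ((Q c * 2 ^ H : ℕ) : ℝ) / 2 ^ gl k c (s j) / Z j with hp
  have hp0 : ∀ j c, 0 ≤ p j c := fun j c => div_nonneg (hterm j c).le (hZpos j).le
  have hp1 : ∀ j, ∑ c, p j c = 1 := fun j => by
    simp only [hp]
    rw [← Finset.sum_div]
    exact div_self (hZpos j).ne'
  have hpr0 : ∀ φ, 0 ≤ pr p φ := fun φ => Finset.prod_nonneg fun j _ => hp0 j (φ j)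
  have hpr1 : ∑ φ, pr p φ = 1 := (h_PRS n k p hp1).1
  refine ⟨Fin n → Fin k, inferInstance, pr p, A, hpr0, hpr1, ?_⟩
  intro t ht
  obtain ⟨hO0, hOt, hOA⟩ := h_ARE m n s t (fun j => (hsW j).2.trans hWm) ht
  set O : ℝ := OPT m s t with hO
  set x : Fin n → Fin k → ℝ := fun j c =>
    2 ^ gl k c (s j) * t j / ((Q c * 2 ^ H : ℕ) : ℝ) with hx
  set μ : ℝ := ∑ j, t j / Z j with hμ
  have hpx : ∀ c, ∑ j, p j c * x j c = μ := fun c => by
    rw [hμ]
    refine Finset.sum_congr rfl fun j _ => ?_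
    simp only [hp, hx]
    have h1 := (hMpos' c).ne'
    have h2 := (hZpos j).ne'
    have h3 : ((2 : ℝ) ^ gl k c (s j)) ≠ 0 := by positivity
    field_simp
  have hx0 : ∀ j c, 0 ≤ x j c ∧ x j c ≤ O / N₀ := by
    intro j c
    have h1 := hMpos' c
    have h2 := ht j
    refine ⟨by simp only [hx]; positivity, ?_⟩
    simp only [hx]
    rw [div_le_div_iff₀ h1 hN0]
    have h3 : (N₀ : ℝ) ≤ (Q c : ℝ) := by exact_mod_cast (hQ c c.2).1
    have h4 : (2 : ℝ) ^ gl k c (s j) ≤ 2 ^ H := pow_le_pow_right₀ (by norm_num) (hgH c j)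
    push_cast
    have h5 : (2 : ℝ) ^ gl k c (s j) * t j ≤ 2 ^ H * O :=
      mul_le_mul h4 (hOt j) h2 (by positivity)
    calc (2 : ℝ) ^ gl k c (s j) * t j * N₀ ≤ 2 ^ H * O * Q c :=
          mul_le_mul h5 h3 hN0.le (by positivity)
      _ = O * (Q c * 2 ^ H) := by ring
  have hD : 0 ≤ O / N₀ := div_nonneg hO0 hN0.le
  have hvar := h_VAR n k p x (O / N₀) μ hk hp0 hp1 hx0 hD hpx
  -- the mean
  have hμO : μ ≤ K * O := by
    have h1 : ∀ j, t j / Z j ≤ K / m * ((s j : ℝ) * t j) := by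
      intro j
      have h2 := Z_lower k hk h_GRD m hmpos θ hθ (fun c => ((Q c * 2 ^ H : ℕ) : ℝ)) (s j)
        (hsW j).1 hr (fun c => (hQ c c.2).2.2)
      rw [div_le_iff₀ (hZpos j)]
      have h3 : 1 ≤ Z j * (K * (s j / m)) := h2
      have h4 := mul_le_mul_of_nonneg_left h3 (ht j)
      calc t j = t j * 1 := (mul_one _).symm
        _ ≤ t j * (Z j * (K * (s j / m))) := h4
        _ = K / m * ((s j : ℝ) * t j) * Z j := by ring
    calc μ ≤ ∑ j, K / m * ((s j : ℝ) * t j) := Finset.sum_le_sum fun j _ => h1 j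
      _ = K / m * ∑ j, (s j : ℝ) * t j := by rw [Finset.mul_sum]
      _ ≤ K / m * (m * O) := mul_le_mul_of_nonneg_left hOA (by positivity)
      _ = K * O := by field_simp
  have hμ0 : 0 ≤ μ := Finset.sum_nonneg fun j _ => div_nonneg (ht j) (hZpos j).le
  -- the makespan
  have hmk : ∑ φ, pr p φ * makespan t ((A φ).run t) ≤ μ + √(k * (O / N₀) * μ) + O := by
    calc ∑ φ, pr p φ * makespan t ((A φ).run t)
        ≤ ∑ φ, pr p φ * ((⨆ c, ld x φ c) + O) :=
          Finset.sum_le_sum fun φ _ =>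
            mul_le_mul_of_nonneg_left (hA φ t O ht hO0 hOt) (hpr0 φ)
      _ = ∑ φ, pr p φ * (⨆ c, ld x φ c) + O := by
          simp only [mul_add]
          rw [Finset.sum_add_distrib, ← Finset.sum_mul, hpr1, one_mul]
      _ ≤ _ := by linarith
  have hsq : √(k * (O / N₀) * μ) ≤ √(k * K / N₀) * O := by
    have h1 : k * (O / N₀) * μ ≤ k * K / N₀ * O ^ 2 := by
      calc k * (O / N₀) * μ ≤ k * (O / N₀) * (K * O) :=
            mul_le_mul_of_nonneg_left hμO (by positivity)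
        _ = k * K / N₀ * O ^ 2 := by ring
    calc √(k * (O / N₀) * μ) ≤ √(k * K / N₀ * O ^ 2) := Real.sqrt_le_sqrt h1
      _ = √(k * K / N₀) * √(O ^ 2) := Real.sqrt_mul (by positivity) _
      _ = √(k * K / N₀) * O := by rw [Real.sqrt_sq hO0]
  calc ∑ φ, pr p φ * makespan t ((A φ).run t) ≤ μ + √(k * (O / N₀) * μ) + O := hmk
    _ ≤ K * O + √(k * K / N₀) * O + O := by linarith
    _ = (1 + K + √(k * K / N₀)) * O := by ring

end Pool.Agent.BSR
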