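import Mathlib

/-!
# Randomised non-clairvoyant scheduling on a linear array (MP_e25616_lc): definitions
-/

set_option autoImplicit false

namespace Pool.Agent.BSR

open Finset

/-! ### The model -/

/-- A non-preemptive schedule of `n` jobs on machines `0, 1, 2, …` arranged in a line: job `j` starts at
time `start j`, and the first of its consecutive machines is `pos j`. -/
structure Schedule (n : ℕ) where
  start : Fin n → ℝ
  pos : Fin n → ℕ

/-- Job `j` occupies the machines `pos j, …, pos j + s j - 1`, all among `0, …, m - 1`, during the time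
interval `[start j, start j + t j)`; no machine runs two jobs at once. -/
def Feasible (m : ℕ) {n : ℕ} (s : Fin n → ℕ) (t : Fin n → ℝ) (σ : Schedule n) : Prop :=
  (∀ j, 0 ≤ σ.start j) ∧ (∀ j, σ.pos j + s j ≤ m) ∧
  ∀ i j, i ≠ j → ∀ τ : ℝ, σ.start i ≤ τ → τ < σ.start i + t i →
    σ.start j ≤ τ → τ < σ.start j + t j →
    σ.pos i + s i ≤ σ.pos j ∨ σ.pos j + s j ≤ σ.pos i

/-- The makespan: the largest completion time (`0` if there are no jobs). -/
noncomputable def makespan {n : ℕ} (t : Fin n → ℝ) (σ : Schedule n) : ℝ :=
  ⨆ j, (σ.start j + t j)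

/-- The optimal (offline) makespan. -/
noncomputable def OPT (m : ℕ) {n : ℕ} (s : Fin n → ℕ) (t : Fin n → ℝ) : ℝ :=
  sInf {x | ∃ σ : Schedule n, Feasible m s t σ ∧ makespan t σ = x}

/-- A deterministic batch-style online rule for jobs with the requests `s` on `m` machines. `run t` is the
feasible schedule it produces when the running times are `t`. The running time of a job is learned only
when the job completes: if `t` and `t'` are indistinguishable before time `τ` along the schedule for `t`
(the jobs completed before `τ` have the same running times, and the jobs then running would not have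
completed before `τ` with `t'` either), then the two schedules agree before time `τ`. -/
structure Rule (m : ℕ) {n : ℕ} (s : Fin n → ℕ) where
  run : (Fin n → ℝ) → Schedule n
  feasible : ∀ t : Fin n → ℝ, (∀ j, 0 ≤ t j) → Feasible m s t (run t)
  nonanticipating : ∀ t t' : Fin n → ℝ, (∀ j, 0 ≤ t j) → (∀ j, 0 ≤ t' j) → ∀ τ : ℝ,
      (∀ j, (run t).start j + t j < τ → t' j = t j) →
      (∀ j, (run t).start j < τ → τ ≤ (run t).start j + t j → τ ≤ (run t).start j + t' j) →
      ∀ j, ((run t).start j < τ →
              (run t').start j = (run t).start j ∧ (run t').pos j = (run t).pos j) ∧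
           (τ ≤ (run t).start j → τ ≤ (run t').start j)

/-- For the requests `s` there is a randomised batch-style online algorithm, i.e. a probability distribution
on finitely many rules, whose expected makespan is at most `c * OPT` for all running times. -/
def Good (m : ℕ) {n : ℕ} (s : Fin n → ℕ) (c : ℝ) : Prop :=
  ∃ (Ω : Type) (_ : Fintype Ω) (p : Ω → ℝ) (A : Ω → Rule m s), (∀ ω, 0 ≤ p ω) ∧ ∑ ω, p ω = 1 ∧
    ∀ t : Fin n → ℝ, (∀ j, 0 ≤ t j) →
      ∑ ω, p ω * makespan t ((A ω).run t) ≤ c * OPT m s t

/-! ### The scheduler of one section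

The section consists of `M` units `0, …, M - 1`. A job of level `i` needs a block of level `i`, i.e. the
units `u` with `u / 2 ^ i = b` for one `b`. The jobs `0, 1, 2, …` are treated in this order, those with `P j`
belong to the section; every job is started at the first moment when a unit is free. -/

/-- the first time when one of the units is free, `f u` is the time when the unit `u` becomes free -/
noncomputable def mn (M : ℕ) (f : ℕ → ℝ) : ℝ := ⨅ u : Fin M, f u

/-- the first unit which is free at this time -/
noncomputable def am (M : ℕ) (f : ℕ → ℝ) : ℕ := sInf {u | u < M ∧ f u ≤ mn M f}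

/-- the free times after a job of level `i` and running time `x` is started -/
noncomputable def stp (M : ℕ) (f : ℕ → ℝ) (i : ℕ) (x : ℝ) (u : ℕ) : ℝ :=
  if u / 2 ^ i = am M f / 2 ^ i then mn M f + x else f u

open Classical in
/-- the free times before the job `j` is started -/
noncomputable def fr (M : ℕ) (lv : ℕ → ℕ) (P : ℕ → Prop) (t : ℕ → ℝ) : ℕ → ℕ → ℝ
  | 0 => fun _ => 0
  | j + 1 => if P j then stp M (fr M lv P t j) (lv j) (t j) else fr M lv P t j

/-- the start of the job `j` -/
noncomputable def St (M : ℕ) (lv : ℕ → ℕ) (P : ℕ → Prop) (t : ℕ → ℝ) (j : ℕ) : ℝ :=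
  mn M (fr M lv P t j)

/-- the block of the job `j` -/
noncomputable def Bk (M : ℕ) (lv : ℕ → ℕ) (P : ℕ → Prop) (t : ℕ → ℝ) (j : ℕ) : ℕ :=
  am M (fr M lv P t j) / 2 ^ lv j

/-- admissible data of a section -/
structure Sec (M : ℕ) (lv : ℕ → ℕ) : Prop where
  pos : 0 < M
  anti : ∀ i j, i ≤ j → lv j ≤ lv i
  dvd : ∀ j, 2 ^ lv j ∣ M

/-! ### Scales -/

/-- the scale of the section `c` of `k` -/
noncomputable def rs (k c : ℕ) : ℝ := (2 : ℝ) ^ ((c : ℝ) / k)

/-- the level of the width `w` in the section `c` of `k` -/
noncomputable def gl (k c w : ℕ) : ℕ := sInf {i : ℕ | (w : ℝ) ≤ rs k c * 2 ^ i}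

/-- the constant: tends to `2 log 2` -/
noncomputable def Kk (k : ℕ) : ℝ := 2 * k * ((2 : ℝ) ^ (1 / (k : ℝ)) - 1)

/-! ### The product distribution -/

/-- the probability of the assignment `φ` if job `j` goes to the section `c` with probability `p j c` -/
def pr {n k : ℕ} (p : Fin n → Fin k → ℝ) (φ : Fin n → Fin k) : ℝ := ∏ j, p j (φ j)

/-- the load of the section `c` -/
def ld {n k : ℕ} (x : Fin n → Fin k → ℝ) (φ : Fin n → Fin k) (c : Fin k) : ℝ :=
  ∑ j ∈ (univ : Finset (Fin n)).filter fun j => φ j = c, x j c

end Pool.Agent.BSR
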