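import Pool.Agent.BSR.Stmts

/-!
# GLB: levels
-/

set_option autoImplicit false

namespace Pool.Agent.BSR

namespace GLBaux

theorem rs_ge (k c : ℕ) : 1 ≤ rs k c := by
  unfold rs
  exact Real.one_le_rpow (by norm_num) (by positivity)

theorem rs_lt {k c : ℕ} (h : c < k) : rs k c < 2 := by
  unfold rs
  have hk : (0 : ℝ) < k := by exact_mod_cast (Nat.zero_le c).trans_lt h
  have h1 : (c : ℝ) / k < 1 := by
    rw [div_lt_one hk]
    exact_mod_cast h
  calc (2 : ℝ) ^ ((c : ℝ) / k) < (2 : ℝ) ^ (1 : ℝ) :=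
        Real.rpow_lt_rpow_of_exponent_lt (by norm_num) h1
    _ = 2 := Real.rpow_one 2

theorem ne (k c w : ℕ) : {i : ℕ | (w : ℝ) ≤ rs k c * 2 ^ i}.Nonempty := by
  refine ⟨w, ?_⟩
  show (w : ℝ) ≤ rs k c * 2 ^ w
  have h1 : (w : ℝ) ≤ 2 ^ w := by exact_mod_cast (Nat.lt_two_pow_self (n := w)).le
  have h2 : (0 : ℝ) ≤ 2 ^ w := by positivity
  nlinarith [rs_ge k c]

theorem le (k c w : ℕ) : (w : ℝ) ≤ rs k c * 2 ^ gl k c w := Nat.sInf_mem (ne k c w)

theorem min {k c w i : ℕ} (h : (w : ℝ) ≤ rs k c * 2 ^ i) : gl k c w ≤ i := Nat.sInf_le h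

end GLBaux

open GLBaux in
theorem x_GLB : S_GLB := by
  intro k c hc
  refine ⟨rs_ge k c, rs_lt hc, le k c, ?_, ?_, ?_⟩
  · intro w w' hw
    refine min ?_
    have h1 : (w : ℝ) ≤ w' := by exact_mod_cast hw
    exact h1.trans (le k c w')
  · intro w hw
    have hw' : (1 : ℝ) ≤ w := by exact_mod_cast hw
    by_cases h0 : gl k c w = 0
    · rw [h0, pow_zero, mul_one]
      linarith [rs_lt hc]
    · obtain ⟨i, hi⟩ := Nat.exists_eq_succ_of_ne_zero h0
      have h1 : ¬ (w : ℝ) ≤ rs k c * 2 ^ i := by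
        intro h
        have := min h
        omega
      rw [not_le] at h1
      rw [hi, Nat.succ_eq_add_one, pow_succ]
      linarith
  · intro w H hw
    refine min ?_
    have h1 : (w : ℝ) ≤ 2 ^ H := by exact_mod_cast hw
    have h2 : (0 : ℝ) ≤ 2 ^ H := by positivity
    nlinarith [rs_ge k c]

end Pool.Agent.BSR
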