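import Pool.Agent.BSR.Stmts

/-!
# The harmonic mean over the scales   (helper55)
-/

set_option autoImplicit false

namespace Pool.Agent.BSR

open Finset

theorem x_GRD (h_GLB : S_GLB) : S_GRD := by
  intro k w hk hw
  have hk0 : (0 : ℝ) < k := by exact_mod_cast hk
  obtain ⟨q, hq⟩ : ∃ q : ℝ, q = (2 : ℝ) ^ (1 / (k : ℝ)) := ⟨_, rfl⟩
  rw [← hq]
  have hqk : q ^ k = 2 := by
    rw [hq, ← Real.rpow_natCast, ← Real.rpow_mul (by norm_num), one_div, inv_mul_cancel₀ hk0.ne',
      Real.rpow_one]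
  have hq1 : 1 < q := by
    rw [hq]
    exact Real.one_lt_rpow (by norm_num) (by positivity)
  have hq0 : 0 < q := by linarith
  have hw0 : (0 : ℝ) < w := by exact_mod_cast hw
  obtain ⟨e, he⟩ : ∃ e : ℕ → ℕ, e = fun c => c + k * gl k c w := ⟨_, rfl⟩
  have hv : ∀ c : ℕ, rs k c * 2 ^ gl k c w = q ^ e c := by
    intro c
    have h1 : rs k c = q ^ c := by
      rw [rs, hq, ← Real.rpow_natCast, ← Real.rpow_mul (by norm_num)]
      congr 1
      ring
    rw [h1, he]
    simp only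
    rw [pow_add, pow_mul, hqk]
  have hlo : ∀ c, c < k → (w : ℝ) ≤ q ^ e c := fun c hc => by
    rw [← hv]
    exact (h_GLB k c hc).2.2.1 w
  have hhi : ∀ c, c < k → q ^ e c < 2 * w := fun c hc => by
    rw [← hv]
    exact (h_GLB k c hc).2.2.2.2.1 w hw
  have hne : ∃ i : ℕ, (w : ℝ) ≤ q ^ i := ⟨e 0, hlo 0 hk⟩
  classical
  obtain ⟨a, ha, hmin⟩ : ∃ a : ℕ, (w : ℝ) ≤ q ^ a ∧ ∀ i, (w : ℝ) ≤ q ^ i → a ≤ i :=
    ⟨Nat.find hne, Nat.find_spec hne, fun i hi => Nat.find_min' hne hi⟩
  have hae : ∀ c, c < k → a ≤ e c := fun c hc => hmin _ (hlo c hc)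
  have heak : ∀ c, c < k → e c < a + k := by
    intro c hc
    by_contra hcon
    push Not at hcon
    have h1 : q ^ (a + k) ≤ q ^ e c := pow_le_pow_right₀ hq1.le hcon
    rw [pow_add, hqk] at h1
    have h2 := hhi c hc
    linarith
  have hinj : Set.InjOn e (range k) := by
    intro c hc d hd hcd
    rw [coe_range, Set.mem_Iio] at hc hd
    have h1 : e c % k = e d % k := by rw [hcd]
    rw [he] at h1
    simp only [Nat.add_mul_mod_self_left] at h1
    rwa [Nat.mod_eq_of_lt hc, Nat.mod_eq_of_lt hd] at h1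
  have himg : (range k).image e = Ico a (a + k) := by
    apply eq_of_subset_of_card_le
    · intro i hi
      obtain ⟨c, hc, rfl⟩ := mem_image.1 hi
      rw [mem_range] at hc
      exact mem_Ico.2 ⟨hae c hc, heak c hc⟩
    · rw [card_image_of_injOn hinj]
      simp
  have hsum : ∑ c ∈ range k, 1 / (rs k c * 2 ^ gl k c w) =
      (1 / q) ^ a * ∑ j ∈ range k, (1 / q) ^ j := by
    calc ∑ c ∈ range k, 1 / (rs k c * 2 ^ gl k c w) = ∑ c ∈ range k, (1 / q) ^ e c := by
          refine sum_congr rfl fun c _ => ?_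
          rw [hv, one_div, one_div, inv_pow]
      _ = ∑ i ∈ (range k).image e, (1 / q) ^ i := by rw [sum_image hinj]
      _ = ∑ i ∈ Ico a (a + k), (1 / q) ^ i := by rw [himg]
      _ = (1 / q) ^ a * ∑ j ∈ range k, (1 / q) ^ j := by
          rw [sum_Ico_eq_sum_range, mul_sum]
          rw [Nat.add_sub_cancel_left]
          refine sum_congr rfl fun j _ => ?_
          rw [pow_add]
  rw [hsum]
  have hS : ∑ j ∈ range k, (1 / q) ^ j = q / (2 * (q - 1)) := by
    have h1 : (1 / q) ^ k = 1 / 2 := by rw [one_div, inv_pow, hqk, one_div]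
    have h2 : 1 / q ≠ 1 := by
      rw [ne_eq, div_eq_iff hq0.ne']
      linarith
    rw [geom_sum_eq h2, h1]
    have h3 : q - 1 ≠ 0 := by linarith
    have h4 : 1 / q - 1 ≠ 0 := sub_ne_zero.2 h2
    rw [div_eq_div_iff h4 (mul_ne_zero two_ne_zero h3)]
    field_simp
    ring
  have haq : q ^ a ≤ w * q := by
    rcases Nat.eq_zero_or_pos a with h | h
    · rw [h, pow_zero]
      have : (1 : ℝ) ≤ w := by exact_mod_cast hw
      nlinarith
    · obtain ⟨b, rfl⟩ : ∃ b, a = b + 1 := ⟨a - 1, by omega⟩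
      have h1 : ¬ (w : ℝ) ≤ q ^ b := fun hb => by
        have := hmin b hb
        omega
      rw [pow_succ]
      exact mul_le_mul_of_nonneg_right (not_le.1 h1).le hq0.le
  have h5 : 1 / (w * q) ≤ (1 / q) ^ a := by
    rw [one_div q, inv_pow, ← one_div]
    exact one_div_le_one_div_of_le (by positivity) haq
  have hq2 : 0 < q - 1 := by linarith
  rw [hS]
  calc 1 / (2 * w * (q - 1)) = 1 / (w * q) * (q / (2 * (q - 1))) := by
        field_simp
    _ ≤ (1 / q) ^ a * (q / (2 * (q - 1))) := mul_le_mul_of_nonneg_right h5 (by positivity)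

end Pool.Agent.BSR
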