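import Pool.Agent.BSR.Stmts

/-!
# The limit of the constant
-/

set_option autoImplicit false

namespace Pool.Agent.BSR

theorem x_LIM : S_LIM := by
  intro ε hε
  obtain ⟨n, hn⟩ := exists_nat_gt (2 / ε)
  have hk : (0 : ℝ) < ((n + 1 : ℕ) : ℝ) := by positivity
  refine ⟨n + 1, Nat.succ_pos n, ?_⟩
  set k : ℝ := ((n + 1 : ℕ) : ℝ) with hkdef
  have hk1 : (1 : ℝ) ≤ k := by
    rw [hkdef]
    exact_mod_cast Nat.succ_le_succ (Nat.zero_le n)
  have hke : 2 / k ≤ ε := by
    rw [div_le_iff₀ hk]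
    rw [div_lt_iff₀ hε] at hn
    have : (n : ℝ) ≤ k := by
      rw [hkdef]
      push_cast
      linarith
    nlinarith
  have hl0 : 0 < Real.log 2 := Real.log_pos one_lt_two
  have hl1 : Real.log 2 ≤ 1 := by
    have := Real.log_two_lt_d9
    linarith
  have hx0 : 0 ≤ Real.log 2 / k := by positivity
  have hx1 : Real.log 2 / k ≤ 1 := by
    rw [div_le_one hk]
    linarith
  have hexp : (2 : ℝ) ^ (1 / k) = Real.exp (Real.log 2 / k) := by
    rw [Real.rpow_def_of_pos two_pos]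
    congr 1
    ring
  have hb := Real.abs_exp_sub_one_sub_id_le (x := Real.log 2 / k) (by
    rw [abs_of_nonneg hx0]
    exact hx1)
  have hb' := (abs_le.1 hb).2
  unfold Kk
  rw [← hkdef, hexp]
  have h1 : Real.exp (Real.log 2 / k) - 1 ≤ Real.log 2 / k + (Real.log 2 / k) ^ 2 := by linarith
  have h2 : 2 * k * (Real.exp (Real.log 2 / k) - 1) ≤
      2 * k * (Real.log 2 / k + (Real.log 2 / k) ^ 2) :=
    mul_le_mul_of_nonneg_left h1 (by positivity)
  have h3 : 2 * k * (Real.log 2 / k + (Real.log 2 / k) ^ 2) =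
      2 * Real.log 2 + (Real.log 2) ^ 2 * (2 / k) := by
    field_simp
  have h4 : (Real.log 2) ^ 2 * (2 / k) ≤ 1 * (2 / k) :=
    mul_le_mul_of_nonneg_right (by nlinarith) (by positivity)
  linarith

end Pool.Agent.BSR
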