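import Pool.Agent.BSR.Stmts

/-!
# MP_e25616_lc: the load of one section (helper23)
-/

set_option autoImplicit false

namespace Pool.Agent.BSR

open Finset

namespace LODaux

theorem div_le_level {u v l i : ℕ} (h : l ≤ i) (huv : u / 2 ^ l = v / 2 ^ l) :
    u / 2 ^ i = v / 2 ^ i := by
  obtain ⟨d, rfl⟩ := Nat.exists_eq_add_of_le h
  rw [pow_add, ← Nat.div_div_eq_div_mul, ← Nat.div_div_eq_div_mul, huv]

open Classical in
theorem fr_const (M : ℕ) (lv : ℕ → ℕ) (P : ℕ → Prop) (t : ℕ → ℝ) (j : ℕ) :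
    ∀ l : ℕ, (∀ i, i < j → l ≤ lv i) → ∀ u v : ℕ, u / 2 ^ l = v / 2 ^ l →
      fr M lv P t j u = fr M lv P t j v := by
  induction j with
  | zero =>
    intro l _ u v _
    rfl
  | succ j ih =>
    intro l hl u v huv
    have h1 := ih l (fun i hi => hl i (by omega)) u v huv
    have h2 := div_le_level (hl j (by omega)) huv
    rw [fr]
    by_cases hP : P j
    · rw [if_pos hP, stp, stp, h2, h1]
    · rw [if_neg hP, h1]

theorem card_block {M i a : ℕ} (ha : a < M) (hd : 2 ^ i ∣ M) :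
    ((range M).filter fun u => u / 2 ^ i = a / 2 ^ i).card = 2 ^ i := by
  have hp : 0 < 2 ^ i := by positivity
  have h1 : ((range M).filter fun u => u / 2 ^ i = a / 2 ^ i) =
      Finset.Ico (a / 2 ^ i * 2 ^ i) (a / 2 ^ i * 2 ^ i + 2 ^ i) := by
    obtain ⟨c, rfl⟩ := hd
    have h2 : a / 2 ^ i < c := by
      rw [Nat.div_lt_iff_lt_mul hp, mul_comm]
      exact ha
    have h3 : (a / 2 ^ i + 1) * 2 ^ i ≤ c * 2 ^ i := Nat.mul_le_mul_right _ h2
    have h4 : (a / 2 ^ i + 1) * 2 ^ i = a / 2 ^ i * 2 ^ i + 2 ^ i := by ring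
    have h5 : c * 2 ^ i = 2 ^ i * c := mul_comm _ _
    ext u
    rw [mem_filter, mem_range, mem_Ico]
    constructor
    · rintro ⟨-, hu⟩
      rw [← hu]
      refine ⟨Nat.div_mul_le_self _ _, ?_⟩
      exact Nat.lt_div_mul_add hp
    · rintro ⟨hu1, hu2⟩
      refine ⟨by omega, ?_⟩
      refine Nat.div_eq_of_lt_le hu1 ?_
      rw [h4]
      exact hu2
  rw [h1, Nat.card_Ico]
  omega

open Classical in
theorem sum_fr (h_MN : S_MN) (M : ℕ) (lv : ℕ → ℕ) (P : ℕ → Prop) (t : ℕ → ℝ) (hS : Sec M lv)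
    (j : ℕ) : ∑ u ∈ range M, fr M lv P t j u = ∑ i ∈ (range j).filter P, 2 ^ lv i * t i := by
  induction j with
  | zero => simp [fr]
  | succ j ih =>
    rw [Finset.range_add_one, Finset.filter_insert]
    by_cases hP : P j
    · obtain ⟨-, ha, hm, -, -⟩ := h_MN M (fr M lv P t j) hS.pos
      rw [if_pos hP, Finset.sum_insert (by simp), ← ih]
      have h1 : ∀ u ∈ range M, fr M lv P t (j + 1) u = fr M lv P t j u +
          if u / 2 ^ lv j = am M (fr M lv P t j) / 2 ^ lv j then t j else 0 := by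
        intro u _
        rw [fr, if_pos hP, stp]
        split_ifs with h2
        · rw [← hm, fr_const M lv P t j (lv j) (fun i hi => hS.anti i j hi.le) u _ h2]
        · rw [add_zero]
      rw [Finset.sum_congr rfl h1, Finset.sum_add_distrib, ← Finset.sum_filter, Finset.sum_const,
        card_block ha (hS.dvd j), nsmul_eq_mul]
      push_cast
      ring
    · rw [if_neg hP, ← ih]
      refine Finset.sum_congr rfl fun u _ => ?_
      rw [fr, if_neg hP]

end LODaux

open LODaux in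
theorem x_LOD (h_MN : S_MN) : S_LOD := by
  classical
  intro M lv P t hS ht j
  have h1 := sum_fr h_MN M lv P t hS j
  have h2 : (M : ℝ) * St M lv P t j ≤ ∑ u ∈ range M, fr M lv P t j u := by
    have h3 : ∑ u ∈ range M, St M lv P t j ≤ ∑ u ∈ range M, fr M lv P t j u :=
      Finset.sum_le_sum fun u hu =>
        (h_MN M (fr M lv P t j) hS.pos).1 u (mem_range.1 hu)
    rwa [Finset.sum_const, card_range, nsmul_eq_mul] at h3
  refine h2.trans (le_of_eq ?_)
  rw [h1]

end Pool.Agent.BSR
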