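import Pool.Agent.BSR.Stmts

set_option autoImplicit false

namespace Pool.Agent.BSR

open Finset

namespace MAIaux

theorem good_mono {m n : ℕ} {s : Fin n → ℕ} {c c' : ℝ} (hcc : c ≤ c')
    (hO : ∀ t : Fin n → ℝ, (∀ j, 0 ≤ t j) → 0 ≤ OPT m s t) (h : Good m s c) : Good m s c' := by
  obtain ⟨Ω, hΩ, p, A, hp, hs, hA⟩ := h
  refine ⟨Ω, hΩ, p, A, hp, hs, fun t ht => (hA t ht).trans ?_⟩
  exact mul_le_mul_of_nonneg_right hcc (hO t ht)

theorem lim (k : ℕ) (K : ℝ) : Filter.Tendsto (fun N : ℕ => 1 + K / (1 - 1 / (N : ℝ)) ^ 2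
      + √(k * (K / (1 - 1 / (N : ℝ)) ^ 2) / N)) Filter.atTop (nhds (1 + K)) := by
  have h1 : Filter.Tendsto (fun N : ℕ => 1 / (N : ℝ)) Filter.atTop (nhds 0) :=
    tendsto_one_div_atTop_nhds_zero_nat
  have h2 : Filter.Tendsto (fun N : ℕ => (1 - 1 / (N : ℝ)) ^ 2) Filter.atTop (nhds ((1 - 0) ^ 2)) :=
    (tendsto_const_nhds.sub h1).pow 2
  have h3 : Filter.Tendsto (fun N : ℕ => K / (1 - 1 / (N : ℝ)) ^ 2) Filter.atTop
      (nhds (K / (1 - 0) ^ 2)) := tendsto_const_nhds.div h2 (by norm_num)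
  have h4 : Filter.Tendsto (fun N : ℕ => k * (K / (1 - 1 / (N : ℝ)) ^ 2) * (1 / (N : ℝ)))
      Filter.atTop (nhds (k * (K / (1 - 0) ^ 2) * 0)) := (tendsto_const_nhds.mul h3).mul h1
  have h5 : Filter.Tendsto (fun N : ℕ => √(k * (K / (1 - 1 / (N : ℝ)) ^ 2) / N))
      Filter.atTop (nhds (√(k * (K / (1 - 0) ^ 2) * 0))) := by
    have := (Real.continuous_sqrt.tendsto _).comp h4
    refine this.congr fun N => ?_
    simp only [Function.comp_apply]
    congr 1
    ring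
  have h6 := (tendsto_const_nhds (x := (1 : ℝ)) (f := Filter.atTop (α := ℕ))).add h3 |>.add h5
  have e : (1 : ℝ) + K / (1 - 0) ^ 2 + √(k * (K / (1 - 0) ^ 2) * 0) = 1 + K := by
    simp
  rw [e] at h6
  exact h6

theorem empty_good (m : ℕ) (s : Fin 0 → ℕ) (c : ℝ) (hc : 0 ≤ c)
    (hO : ∀ t : Fin 0 → ℝ, (∀ j, 0 ≤ t j) → 0 ≤ OPT m s t) : Good m s c := by
  refine ⟨Unit, inferInstance, fun _ => 1, fun _ =>
    { run := fun _ => ⟨fun j => j.elim0, fun j => j.elim0⟩
      feasible := fun t _ => ⟨fun j => j.elim0, fun j => j.elim0, fun j => j.elim0⟩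
      nonanticipating := fun t t' _ _ τ _ _ j => j.elim0 }, fun _ => zero_le_one, by simp, ?_⟩
  intro t ht
  have : makespan t (⟨fun j => j.elim0, fun j => j.elim0⟩ : Schedule 0) = 0 := by
    unfold makespan
    exact Real.iSup_of_isEmpty _
  simp only [univ_unique, one_mul, sum_const, card_singleton, one_smul]
  rw [this]
  exact mul_nonneg hc (hO t ht)

end MAIaux

open MAIaux in
theorem x_MAI (h_COR : S_COR) (h_REL : S_REL) (h_LIM : S_LIM) (h_ARE : S_ARE) : S_MAI := by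
  intro ε hε
  obtain ⟨k, hk, hK⟩ := h_LIM (ε / 4) (by positivity)
  have hev := (lim k (Kk k)).eventually_le_const
    (show 1 + Kk k < 1 + 2 * Real.log 2 + ε by linarith)
  obtain ⟨N, hN, hN2⟩ := (hev.and (Filter.eventually_ge_atTop 2)).exists
  have hkN : (0 : ℝ) < 8 * k * N := by
    have : (0 : ℝ) < k := by exact_mod_cast hk
    have : (0 : ℝ) < N := by exact_mod_cast (by omega : 0 < N)
    positivity
  refine ⟨1 / (8 * k * N), by positivity, ?_⟩
  intro m n s hs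
  have hle : ∀ j, 8 * k * N * s j ≤ m := by
    intro j
    have h1 := (hs j).2
    rw [one_div, inv_mul_eq_div, le_div_iff₀ hkN] at h1
    have : ((8 * k * N * s j : ℕ) : ℝ) ≤ m := by
      push_cast
      linarith
    exact_mod_cast this
  have hlem : ∀ j, s j ≤ m := by
    intro j
    have h8 : 1 ≤ 8 * k * N := Nat.one_le_iff_ne_zero.mpr (by positivity)
    calc s j = 1 * s j := (one_mul _).symm
      _ ≤ 8 * k * N * s j := Nat.mul_le_mul_right _ h8
      _ ≤ m := hle j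
  have hO : ∀ t : Fin n → ℝ, (∀ j, 0 ≤ t j) → 0 ≤ OPT m s t := fun t ht =>
    (h_ARE m n s t hlem ht).1
  rcases Nat.eq_zero_or_pos n with rfl | hn
  · refine empty_good m s _ ?_ hO
    have := Real.log_nonneg (show (1 : ℝ) ≤ 2 by norm_num)
    linarith
  have hne : (univ : Finset (Fin n)).Nonempty := ⟨⟨0, hn⟩, mem_univ _⟩
  obtain ⟨j₀, -, hj₀⟩ := exists_max_image univ s hne
  set π := Tuple.sort (OrderDual.toDual ∘ s) with hπ
  have hanti : Antitone (s ∘ π) := by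
    intro a b hab
    have := Tuple.monotone_sort (OrderDual.toDual ∘ s) hab
    exact this
  have h1 := h_COR m n k N (s j₀) (s ∘ π) hk hN2 (hs j₀).1 (hle j₀) hanti
    (fun j => ⟨(hs (π j)).1, hj₀ _ (mem_univ _)⟩)
  have h2 := h_REL m n s π _ h1
  exact good_mono hN hO h2

end Pool.Agent.BSR
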