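import Pool.Agent.BSR.Stmts

/-!
# Randomised non-clairvoyant scheduling on a linear array (MP_e25616_lc): basic facts on `mn`, `am`, `stp`
-/

set_option autoImplicit false

namespace Pool.Agent.BSR

open Finset

namespace MNaux

theorem mn_le {M : ℕ} (f : ℕ → ℝ) {u : ℕ} (hu : u < M) : mn M f ≤ f u :=
  ciInf_le (Set.finite_range fun u : Fin M => f u).bddBelow (⟨u, hu⟩ : Fin M)

theorem exists_mn {M : ℕ} (hM : 0 < M) (f : ℕ → ℝ) : ∃ u, u < M ∧ f u ≤ mn M f := by
  have : Nonempty (Fin M) := ⟨⟨0, hM⟩⟩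
  obtain ⟨u, hu⟩ := exists_eq_ciInf_of_finite (f := fun u : Fin M => f u)
  exact ⟨u, u.2, hu.le⟩

theorem am_mem {M : ℕ} (hM : 0 < M) (f : ℕ → ℝ) : am M f < M ∧ f (am M f) ≤ mn M f :=
  Nat.sInf_mem (s := {u | u < M ∧ f u ≤ mn M f}) (exists_mn hM f)

end MNaux

open MNaux in
theorem x_MN : S_MN := by
  intro M f hM
  have h1 : f (am M f) = mn M f := le_antisymm (am_mem hM f).2 (mn_le f (am_mem hM f).1)
  refine ⟨fun u hu => mn_le f hu, (am_mem hM f).1, h1, fun x hx => ?_, fun i x hx hcon u => ?_⟩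
  · rw [← h1]
    exact hx _ (am_mem hM f).1
  · unfold stp
    split_ifs with h
    · rw [hcon u _ h, h1]
      linarith
    · exact le_rfl

end Pool.Agent.BSR
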