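import Pool.Agent.BSR.Stmts

/-!
# Randomised non-clairvoyant scheduling on a linear array (MP_e25616_lc): module NON   (helper46)

Non-anticipation of the scheduler of one section.
-/

set_option autoImplicit false

namespace Pool.Agent.BSR

open Finset

namespace NONaux

/-- the free times agree before `τ` -/
def Ag (M : ℕ) (τ : ℝ) (f f' : ℕ → ℝ) : Prop := ∀ u, u < M → f u = f' u ∨ (τ ≤ f u ∧ τ ≤ f' u)

theorem ag_lt (h_MN : S_MN) {M : ℕ} {τ : ℝ} {f f' : ℕ → ℝ} (hM : 0 < M) (h : Ag M τ f f')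
    (hτ : mn M f < τ) : mn M f' = mn M f ∧ am M f' = am M f := by
  obtain ⟨a1, a2, a3, a4, -⟩ := h_MN M f hM
  obtain ⟨b1, b2, b3, b4, -⟩ := h_MN M f' hM
  have e1 : mn M f' = mn M f := by
    apply le_antisymm
    · rcases h _ a2 with h1 | h1
      · rw [← a3, h1]
        exact b1 _ a2
      · linarith [h1.1]
    · refine b4 _ fun u hu => ?_
      rcases h u hu with h1 | h1
      · rw [← h1]
        exact a1 u hu
      · linarith [h1.2]
  refine ⟨e1, ?_⟩
  unfold am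
  congr 1
  ext u
  simp only [Set.mem_ofPred_eq]
  rw [e1]
  refine and_congr_right fun hu => ?_
  rcases h u hu with h1 | h1
  · rw [h1]
  · constructor
    · intro h2
      linarith [h1.2]
    · intro h2
      linarith [h1.1]

theorem ag_le (h_MN : S_MN) {M : ℕ} {τ : ℝ} {f f' : ℕ → ℝ} (hM : 0 < M) (h : Ag M τ f f')
    (hτ : τ ≤ mn M f) : τ ≤ mn M f' := by
  obtain ⟨a1, -, -, -, -⟩ := h_MN M f hM
  obtain ⟨-, -, -, b4, -⟩ := h_MN M f' hM
  refine b4 _ fun u hu => ?_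
  rcases h u hu with h1 | h1
  · rw [← h1]
    exact hτ.trans (a1 u hu)
  · exact h1.2

theorem ag_stp (h_MN : S_MN) {M : ℕ} {τ : ℝ} {f f' : ℕ → ℝ} (hM : 0 < M) (h : Ag M τ f f')
    (i : ℕ) {x x' : ℝ} (hx : 0 ≤ x) (hx' : 0 ≤ x') (h1 : mn M f + x < τ → x' = x)
    (h2 : mn M f < τ → τ ≤ mn M f + x → τ ≤ mn M f + x') :
    Ag M τ (stp M f i x) (stp M f' i x') := by
  intro u hu
  rcases lt_or_ge (mn M f) τ with hm | hm
  · obtain ⟨e1, e2⟩ := ag_lt h_MN hM h hm
    unfold stp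
    rw [e1, e2]
    split_ifs with hb
    · rcases lt_or_ge (mn M f + x) τ with h3 | h3
      · left
        rw [h1 h3]
      · exact Or.inr ⟨h3, h2 hm h3⟩
    · exact h u hu
  · have hm' := ag_le h_MN hM h hm
    have a1 := (h_MN M f hM).1 u hu
    have b1 := (h_MN M f' hM).1 u hu
    right
    unfold stp
    constructor
    · split_ifs
      · linarith
      · linarith
    · split_ifs
      · linarith
      · linarith

theorem ag_fr (h_MN : S_MN) {M : ℕ} {lv : ℕ → ℕ} {P : ℕ → Prop} {t t' : ℕ → ℝ} {τ : ℝ}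
    (hM : 0 < M) (ht : ∀ j, 0 ≤ t j) (ht' : ∀ j, 0 ≤ t' j)
    (h1 : ∀ j, P j → St M lv P t j + t j < τ → t' j = t j)
    (h2 : ∀ j, P j → St M lv P t j < τ → τ ≤ St M lv P t j + t j → τ ≤ St M lv P t j + t' j) :
    ∀ j, Ag M τ (fr M lv P t j) (fr M lv P t' j) := by
  intro j
  induction j with
  | zero =>
    intro u _
    left
    rfl
  | succ j ih =>
    unfold fr
    split_ifs with hP
    · exact ag_stp h_MN hM ih _ (ht j) (ht' j) (h1 j hP) (h2 j hP)
    · exact ih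

end NONaux

open NONaux in
theorem x_NON (h_MN : S_MN) : S_NON := by
  intro M lv P t t' τ hM ht ht' h1 h2 j
  have h := ag_fr h_MN hM ht ht' h1 h2 j
  refine ⟨fun hj => ?_, fun hj => ag_le h_MN hM h hj⟩
  obtain ⟨e1, e2⟩ := ag_lt h_MN hM h hj
  exact ⟨e1, by unfold Bk; rw [e2]⟩

end Pool.Agent.BSR
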