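import Pool.Agent.BSR.Stmts

/-!
# Numbers of units
-/

set_option autoImplicit false

namespace Pool.Agent.BSR

open Finset

namespace NUMaux

theorem rs_ge (k c : ℕ) : 1 ≤ rs k c :=
  Real.one_le_rpow (by norm_num) (by positivity)

theorem rs_lt {k c : ℕ} (hk : 0 < k) (hc : c < k) : rs k c < 2 := by
  have h1 : ((c : ℝ) / k) < 1 := by
    rw [div_lt_one (by exact_mod_cast hk)]
    exact_mod_cast hc
  calc rs k c < (2 : ℝ) ^ (1 : ℝ) := Real.rpow_lt_rpow_of_exponent_lt (by norm_num) h1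
    _ = 2 := Real.rpow_one 2

theorem exH {W : ℕ} (hW : 1 ≤ W) : ∃ H : ℕ, W ≤ 2 ^ H ∧ 2 ^ H < 2 * W := by
  have hex : ∃ H : ℕ, W ≤ 2 ^ H := ⟨W, Nat.lt_two_pow_self.le⟩
  refine ⟨Nat.find hex, Nat.find_spec hex, ?_⟩
  rcases Nat.eq_zero_or_pos (Nat.find hex) with h | h
  · rw [h]; omega
  · have h2 := Nat.find_min hex (m := Nat.find hex - 1) (by omega)
    have h3 : 2 ^ Nat.find hex = 2 * 2 ^ (Nat.find hex - 1) := by
      rw [← pow_succ']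
      congr 1
      omega
    omega

end NUMaux

open NUMaux in
theorem x_NUM : S_NUM := by
  intro m k N₀ W hk hN hW hm
  obtain ⟨H, hH1, hH2⟩ := exH hW
  have hkR : (0 : ℝ) < k := by exact_mod_cast hk
  have hNR : (1 : ℝ) ≤ N₀ := by exact_mod_cast hN
  have hWR : (1 : ℝ) ≤ W := by exact_mod_cast hW
  have hℓ1 : 8 * N₀ * W ≤ m / k := by
    rw [Nat.le_div_iff_mul_le hk]
    calc 8 * N₀ * W * k = 8 * k * N₀ * W := by ring
      _ ≤ m := hm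
  have hℓ1R : (8 : ℝ) * N₀ * W ≤ ((m / k : ℕ) : ℝ) := by exact_mod_cast hℓ1
  have hℓ2 : (m : ℝ) / k - 1 ≤ ((m / k : ℕ) : ℝ) := by
    have h1 : m < k * (m / k + 1) := by
      have := Nat.lt_mul_div_succ m hk
      simpa using this
    have h2 : (m : ℝ) < k * (((m / k : ℕ) : ℝ) + 1) := by exact_mod_cast h1
    have h3 : (m : ℝ) / k < ((m / k : ℕ) : ℝ) + 1 := by
      rw [div_lt_iff₀ hkR]
      linarith
    linarith
  have hmk : (8 : ℝ) * N₀ * W ≤ (m : ℝ) / k := by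
    rw [le_div_iff₀ hkR]
    have : ((8 * k * N₀ * W : ℕ) : ℝ) ≤ m := by exact_mod_cast hm
    push_cast at this
    linarith
  have hNW : (N₀ : ℝ) ≤ N₀ * W := by nlinarith
  have hN1 : (1 : ℝ) / N₀ ≤ 1 := by
    rw [div_le_one (by linarith)]
    exact hNR
  refine ⟨m / k, H, fun c => ⌊(((m / k : ℕ) : ℝ)) / (rs k c * 2 ^ H)⌋₊, Nat.mul_div_le m k, hH1, ?_⟩
  intro c hc
  set ℓ : ℝ := ((m / k : ℕ) : ℝ) with hℓ
  have hr1 := rs_ge k c
  have hr2 := rs_lt hk hc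
  have h2H : (0 : ℝ) < 2 ^ H := by positivity
  have h2HW : (2 : ℝ) ^ H < 2 * W := by exact_mod_cast hH2
  set R : ℝ := rs k c * 2 ^ H with hR
  have hR0 : 0 < R := by positivity
  have hR4 : R < 4 * W := by
    calc R = rs k c * 2 ^ H := rfl
      _ ≤ 2 * 2 ^ H := by nlinarith
      _ < 4 * W := by linarith
  have hNR4 : N₀ * R ≤ ℓ := by
    have : N₀ * R ≤ N₀ * (4 * W) := mul_le_mul_of_nonneg_left hR4.le (by linarith)
    nlinarith
  have hQ2 : ((⌊ℓ / R⌋₊ : ℕ) : ℝ) ≤ ℓ / R := Nat.floor_le (by positivity)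
  have hQ3 : ℓ / R < (⌊ℓ / R⌋₊ : ℕ) + 1 := Nat.lt_floor_add_one _
  have hcast : rs k c * ((⌊ℓ / R⌋₊ * 2 ^ H : ℕ) : ℝ) = (⌊ℓ / R⌋₊ : ℕ) * R := by
    push_cast
    rw [hR]
    ring
  refine ⟨?_, ?_, ?_⟩
  · refine Nat.le_floor ?_
    rw [le_div_iff₀ hR0]
    exact hNR4
  · rw [hcast]
    calc ((⌊ℓ / R⌋₊ : ℕ) : ℝ) * R ≤ ℓ / R * R := mul_le_mul_of_nonneg_right hQ2 hR0.le
      _ = ℓ := div_mul_cancel₀ _ hR0.ne'
  · rw [hcast]
    have h1 : ℓ - R ≤ (⌊ℓ / R⌋₊ : ℕ) * R := by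
      have h2 : ℓ / R * R < ((⌊ℓ / R⌋₊ : ℕ) + 1) * R := mul_lt_mul_of_pos_right hQ3 hR0
      rw [div_mul_cancel₀ _ hR0.ne'] at h2
      linarith
    have h3 : R ≤ ℓ * (1 / N₀) := by
      rw [mul_one_div, le_div_iff₀ (by linarith)]
      linarith
    have h4 : (m : ℝ) / k * (1 - 1 / N₀) ≤ ℓ := by
      have h5 : 1 ≤ (m : ℝ) / k * (1 / N₀) := by
        rw [mul_one_div, le_div_iff₀ (by linarith)]
        linarith
      linarith
    calc (m : ℝ) / k * (1 - 1 / N₀) ^ 2 = (m : ℝ) / k * (1 - 1 / N₀) * (1 - 1 / N₀) := by ring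
      _ ≤ ℓ * (1 - 1 / N₀) := mul_le_mul_of_nonneg_right h4 (by linarith)
      _ = ℓ - ℓ * (1 / N₀) := by ring
      _ ≤ ℓ - R := by linarith
      _ ≤ _ := h1

end Pool.Agent.BSR
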