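import Pool.Agent.BSR.Stmts

/-!
# MP_e25616_lc: PRS, the product distribution
-/

set_option autoImplicit false

namespace Pool.Agent.BSR

open Finset

namespace PRSaux

theorem gen {n k : ℕ} (q : Fin n → Fin k → ℝ) :
    ∑ φ : Fin n → Fin k, ∏ j, q j (φ j) = ∏ j, ∑ c, q j c := by
  rw [Finset.prod_univ_sum, Fintype.piFinset_univ]

theorem one {n k : ℕ} (p : Fin n → Fin k → ℝ) (hp : ∀ j, ∑ c, p j c = 1) (i : Fin n)
    (F : Fin k → ℝ) : ∑ φ, pr p φ * F (φ i) = ∑ c, p i c * F c := by
  have h1 : ∀ φ : Fin n → Fin k,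
      pr p φ * F (φ i) = ∏ j, (p j (φ j) * (if j = i then F (φ j) else 1)) := by
    intro φ
    rw [Finset.prod_mul_distrib, Finset.prod_ite_eq' univ i (fun j => F (φ j)),
      if_pos (mem_univ i)]
    rfl
  rw [Finset.sum_congr rfl fun φ _ => h1 φ, gen (fun j c => p j c * (if j = i then F c else 1))]
  have h2 : ∀ j : Fin n, (∑ c, p j c * (if j = i then F c else 1)) =
      if j = i then ∑ c, p j c * F c else 1 := by
    intro j
    by_cases h : j = i
    · simp [h]
    · simp [h, hp]
  rw [Finset.prod_congr rfl fun j _ => h2 j,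
    Finset.prod_ite_eq' univ i (fun j => ∑ c, p j c * F c), if_pos (mem_univ i)]

theorem two {n k : ℕ} (p : Fin n → Fin k → ℝ) (hp : ∀ j, ∑ c, p j c = 1) (i i' : Fin n)
    (F G : Fin k → ℝ) (hi : i ≠ i') :
    ∑ φ, pr p φ * (F (φ i) * G (φ i')) = (∑ c, p i c * F c) * ∑ c, p i' c * G c := by
  have h1 : ∀ φ : Fin n → Fin k,
      pr p φ * (F (φ i) * G (φ i')) = ∏ j, (p j (φ j) * ((if j = i then F (φ j) else 1) *
        (if j = i' then G (φ j) else 1))) := by
    intro φ
    rw [Finset.prod_mul_distrib, Finset.prod_mul_distrib,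
      Finset.prod_ite_eq' univ i (fun j => F (φ j)), if_pos (mem_univ i),
      Finset.prod_ite_eq' univ i' (fun j => G (φ j)), if_pos (mem_univ i')]
    rfl
  rw [Finset.sum_congr rfl fun φ _ => h1 φ, gen (fun j c => p j c * ((if j = i then F c else 1) *
        (if j = i' then G c else 1)))]
  have h2 : ∀ j : Fin n, (∑ c, p j c * ((if j = i then F c else 1) *
        (if j = i' then G c else 1))) =
      (if j = i then ∑ c, p j c * F c else 1) * (if j = i' then ∑ c, p j c * G c else 1) := by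
    intro j
    by_cases h : j = i
    · have h' : j ≠ i' := fun h' => hi (h.symm.trans h')
      simp [h, hi]
    · by_cases h' : j = i'
      · simp [h', hi.symm]
      · simp [h, h', hp]
  rw [Finset.prod_congr rfl fun j _ => h2 j, Finset.prod_mul_distrib,
    Finset.prod_ite_eq' univ i (fun j => ∑ c, p j c * F c), if_pos (mem_univ i),
    Finset.prod_ite_eq' univ i' (fun j => ∑ c, p j c * G c), if_pos (mem_univ i')]

end PRSaux

theorem x_PRS : S_PRS := by
  intro n k p hp
  refine ⟨?_, PRSaux.one p hp, PRSaux.two p hp⟩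
  show ∑ φ : Fin n → Fin k, ∏ j, p j (φ j) = 1
  rw [PRSaux.gen]
  simp [hp]

end Pool.Agent.BSR
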