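import Pool.Agent.BSR.Stmts

/-!
# REL: relabelling of the jobs
-/

set_option autoImplicit false

namespace Pool.Agent.BSR

namespace RELaux

/-- The relabelled schedule. -/
def rel {n : ℕ} (π : Equiv.Perm (Fin n)) (σ : Schedule n) : Schedule n :=
  ⟨fun j => σ.start (π.symm j), fun j => σ.pos (π.symm j)⟩

theorem feas {m n : ℕ} {s : Fin n → ℕ} {t : Fin n → ℝ} (π : Equiv.Perm (Fin n))
    {σ : Schedule n} (h : Feasible m (s ∘ π) (t ∘ π) σ) : Feasible m s t (rel π σ) := by
  obtain ⟨h1, h2, h3⟩ := h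
  refine ⟨fun j => h1 _, fun j => ?_, ?_⟩
  · have := h2 (π.symm j)
    simpa [rel] using this
  · intro i j hij τ ha hb hc hd
    have := h3 (π.symm i) (π.symm j) (fun h => hij (π.symm.injective h)) τ ha
      (by simpa [rel] using hb) hc (by simpa [rel] using hd)
    simpa [rel] using this

theorem mk {n : ℕ} (t : Fin n → ℝ) (π : Equiv.Perm (Fin n)) (σ : Schedule n) :
    makespan t (rel π σ) = makespan (t ∘ π) σ := by
  unfold makespan
  rw [← Equiv.iSup_comp (g := fun j => (rel π σ).start j + t j) π]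
  simp [rel]

theorem opt (m : ℕ) {n : ℕ} (s : Fin n → ℕ) (t : Fin n → ℝ) (π : Equiv.Perm (Fin n)) :
    OPT m (s ∘ π) (t ∘ π) = OPT m s t := by
  unfold OPT
  congr 1
  ext x
  constructor
  · rintro ⟨σ, h1, h2⟩
    exact ⟨rel π σ, feas π h1, by rw [mk, h2]⟩
  · rintro ⟨σ, h1, h2⟩
    have hs : (s ∘ π) ∘ π.symm = s := by funext j; simp
    have ht : (t ∘ π) ∘ π.symm = t := by funext j; simp
    refine ⟨rel π.symm σ, feas (s := s ∘ π) (t := t ∘ π) π.symm ?_, ?_⟩
    · rw [hs, ht]; exact h1
    · rw [mk, ht, h2]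

/-- The relabelled rule. -/
noncomputable def rule {m n : ℕ} {s : Fin n → ℕ} (π : Equiv.Perm (Fin n)) (A : Rule m (s ∘ π)) :
    Rule m s where
  run t := rel π (A.run (t ∘ π))
  feasible t ht := feas π (A.feasible (t ∘ π) fun j => ht (π j))
  nonanticipating t t' ht ht' τ h1 h2 j := by
    have := A.nonanticipating (t ∘ π) (t' ∘ π) (fun j => ht (π j)) (fun j => ht' (π j)) τ
      (fun i hi => by
        have := h1 (π i)
        simp only [rel, Equiv.symm_apply_apply] at this
        exact this hi)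
      (fun i hi hj => by
        have := h2 (π i)
        simp only [rel, Equiv.symm_apply_apply] at this
        exact this hi hj) (π.symm j)
    exact this

end RELaux

/-- REL. -/
theorem x_REL : S_REL := by
  rintro m n s π c ⟨Ω, hΩ, p, A, hp, hs, h⟩
  refine ⟨Ω, hΩ, p, fun ω => RELaux.rule π (A ω), hp, hs, ?_⟩
  intro t ht
  have := h (t ∘ π) fun j => ht (π j)
  rw [RELaux.opt] at this
  refine le_trans (le_of_eq ?_) this
  apply Finset.sum_congr rfl
  intro ω _
  rw [← RELaux.mk]
  rfl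

end Pool.Agent.BSR
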