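import Pool.Agent.BSR.Stmts

/-!
# RUL: the rule of an assignment of the jobs to the sections
-/

set_option autoImplicit false

namespace Pool.Agent.BSR

open Finset

namespace RULaux

/-- extension by zero -/
noncomputable def ext {n : ℕ} (t : Fin n → ℝ) (j : ℕ) : ℝ := if h : j < n then t ⟨j, h⟩ else 0

theorem ext_val {n : ℕ} (t : Fin n → ℝ) (j : Fin n) : ext t (j : ℕ) = t j := by
  unfold ext
  rw [dif_pos j.isLt]

theorem ext_nonneg {n : ℕ} {t : Fin n → ℝ} (ht : ∀ j, 0 ≤ t j) (j : ℕ) : 0 ≤ ext t j := by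
  unfold ext
  split_ifs with h
  · exact ht _
  · exact le_refl _

/-- levels extended by zero -/
def lev {n : ℕ} (s : Fin n → ℕ) (g : ℕ → ℕ) (j : ℕ) : ℕ := if h : j < n then g (s ⟨j, h⟩) else 0

theorem lev_val {n : ℕ} (s : Fin n → ℕ) (g : ℕ → ℕ) (j : Fin n) : lev s g (j : ℕ) = g (s j) := by
  unfold lev
  rw [dif_pos j.isLt]

/-- the jobs of the section `c` -/
def PP {n k : ℕ} (φ : Fin n → Fin k) (c : Fin k) (j : ℕ) : Prop := ∃ h : j < n, φ ⟨j, h⟩ = c

theorem PP_val {n k : ℕ} (φ : Fin n → Fin k) (c : Fin k) (j : Fin n) :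
    PP φ c (j : ℕ) ↔ φ j = c := by
  unfold PP
  constructor
  · rintro ⟨h, e⟩
    exact e
  · intro e
    exact ⟨j.isLt, e⟩

theorem sec {n k : ℕ} {s : Fin n → ℕ} (hs : Antitone s) (M : Fin k → ℕ) (g : Fin k → ℕ → ℕ)
    (hM : ∀ c, 0 < M c) (hg : ∀ c, Monotone (g c)) (hd : ∀ c j, 2 ^ g c (s j) ∣ M c) (c : Fin k) :
    Sec (M c) (lev s (g c)) where
  pos := hM c
  anti := by
    intro i j hij
    unfold lev
    by_cases hj : j < n
    · have hi : i < n := lt_of_le_of_lt hij hj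
      rw [dif_pos hj, dif_pos hi]
      exact hg c (hs (by exact hij))
    · rw [dif_neg hj]
      exact Nat.zero_le _
  dvd := by
    intro j
    unfold lev
    by_cases hj : j < n
    · rw [dif_pos hj]
      exact hd c ⟨j, hj⟩
    · rw [dif_neg hj]
      simp

/-- floor of disjoint intervals -/
theorem flo {x y : ℝ} {w : ℕ} (hx : 0 ≤ x) (h : x + w ≤ y) : ⌊x⌋₊ + w ≤ ⌊y⌋₊ := by
  rw [← Nat.floor_add_natCast hx]
  exact Nat.floor_le_floor h

section

variable {m n k ℓ : ℕ} (s : Fin n → ℕ) (φ : Fin n → Fin k) (r : Fin k → ℝ)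
  (M : Fin k → ℕ) (g : Fin k → ℕ → ℕ)

/-- start of the job `j` -/
noncomputable def sta (t : Fin n → ℝ) (j : Fin n) : ℝ :=
  St (M (φ j)) (lev s (g (φ j))) (PP φ (φ j)) (ext t) j

/-- block of the job `j` -/
noncomputable def blk (t : Fin n → ℝ) (j : Fin n) : ℕ :=
  Bk (M (φ j)) (lev s (g (φ j))) (PP φ (φ j)) (ext t) j

/-- position of the job `j` -/
noncomputable def psn (ℓ : ℕ) (t : Fin n → ℝ) (j : Fin n) : ℕ :=
  (φ j : ℕ) * ℓ + ⌊r (φ j) * ((2 : ℝ) ^ g (φ j) (s j) * (blk s φ M g t j : ℝ))⌋₊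

end

/-- two jobs of the same section -/
theorem same (h_CON : S_CON) {n k ℓ : ℕ} {s : Fin n → ℕ} {φ : Fin n → Fin k} {r : Fin k → ℝ}
    {M : Fin k → ℕ} {g : Fin k → ℕ → ℕ} (hs : Antitone s) (hr : ∀ c, 0 < r c)
    (hM : ∀ c, 0 < M c) (hg : ∀ c, Monotone (g c))
    (hd : ∀ c j, 2 ^ g c (s j) ∣ M c) (hw : ∀ c j, (s j : ℝ) ≤ r c * 2 ^ g c (s j))
    {t : Fin n → ℝ} (ht : ∀ j, 0 ≤ t j) {i j : Fin n} (hij : (i : ℕ) < j) (hc : φ i = φ j) {τ : ℝ}
    (h1 : sta s φ M g t j ≤ τ) (h2 : τ < sta s φ M g t i + t i) :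
    psn s φ r M g ℓ t i + s i ≤ psn s φ r M g ℓ t j ∨
      psn s φ r M g ℓ t j + s j ≤ psn s φ r M g ℓ t i := by
  unfold psn
  unfold sta at h1 h2
  rw [hc] at h2 ⊢
  obtain ⟨c1, c2, c3, c4⟩ := h_CON (M (φ j)) (lev s (g (φ j))) (PP φ (φ j)) (ext t)
    (sec hs M g hM hg hd (φ j)) (ext_nonneg ht)
  have c4' := c4 i j hij ((PP_val φ (φ j) i).mpr hc)
  rw [ext_val, lev_val, lev_val] at c4'
  have hlv : g (φ j) (s j) ≤ g (φ j) (s i) := hg _ (hs (le_of_lt hij))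
  have hb : blk s φ M g t i = Bk (M (φ j)) (lev s (g (φ j))) (PP φ (φ j)) (ext t) i := by
    unfold blk
    rw [hc]
  have hb' : blk s φ M g t j = Bk (M (φ j)) (lev s (g (φ j))) (PP φ (φ j)) (ext t) j := rfl
  rw [← hb, ← hb'] at c4'
  generalize blk s φ M g t i = Bi at *
  generalize blk s φ M g t j = Bj at *
  have hwi := hw (φ j) i
  have hwj := hw (φ j) j
  have hrj := hr (φ j)
  generalize g (φ j) (s i) = a at *
  generalize g (φ j) (s j) = b at *
  generalize r (φ j) = R at *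
  have hne : Bj / 2 ^ (a - b) ≠ Bi := fun h => absurd (c4' h) (by linarith)
  have hab : (2 : ℕ) ^ a = 2 ^ (a - b) * 2 ^ b := by rw [← pow_add, Nat.sub_add_cancel hlv]
  rcases lt_or_gt_of_ne hne with hlt | hgt
  · right
    rw [Nat.add_assoc]
    apply Nat.add_le_add_left
    apply flo (by positivity)
    have h3 : Bj < Bi * 2 ^ (a - b) := (Nat.div_lt_iff_lt_mul (by positivity)).mp hlt
    have h4 : (Bj + 1) * 2 ^ b ≤ 2 ^ a * Bi := by
      rw [hab]
      calc (Bj + 1) * 2 ^ b ≤ (Bi * 2 ^ (a - b)) * 2 ^ b := Nat.mul_le_mul_right _ h3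
        _ = 2 ^ (a - b) * 2 ^ b * Bi := by ring
    have h5 : (((Bj : ℝ) + 1) * 2 ^ b) ≤ 2 ^ a * (Bi : ℝ) := by exact_mod_cast h4
    nlinarith [mul_le_mul_of_nonneg_left h5 hrj.le]
  · left
    rw [Nat.add_assoc]
    apply Nat.add_le_add_left
    apply flo (by positivity)
    have h3 : (Bi + 1) * 2 ^ (a - b) ≤ Bj := by
      have hgt' : Bi + 1 ≤ Bj / 2 ^ (a - b) := hgt
      exact (Nat.le_div_iff_mul_le (by positivity)).mp hgt'
    have h4 : (Bi + 1) * 2 ^ a ≤ 2 ^ b * Bj := by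
      rw [hab]
      calc (Bi + 1) * (2 ^ (a - b) * 2 ^ b) = ((Bi + 1) * 2 ^ (a - b)) * 2 ^ b := by ring
        _ ≤ Bj * 2 ^ b := Nat.mul_le_mul_right _ h3
        _ = 2 ^ b * Bj := by ring
    have h5 : (((Bi : ℝ) + 1) * 2 ^ a) ≤ 2 ^ b * (Bj : ℝ) := by exact_mod_cast h4
    nlinarith [mul_le_mul_of_nonneg_left h5 hrj.le]

/-- a job stays in its section -/
theorem inside (h_CON : S_CON) {n k ℓ : ℕ} {s : Fin n → ℕ} {φ : Fin n → Fin k} {r : Fin k → ℝ}
    {M : Fin k → ℕ} {g : Fin k → ℕ → ℕ} (hs : Antitone s) (hr : ∀ c, 0 < r c)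
    (hM : ∀ c, 0 < M c) (hrM : ∀ c, r c * M c ≤ ℓ) (hg : ∀ c, Monotone (g c))
    (hd : ∀ c j, 2 ^ g c (s j) ∣ M c) (hw : ∀ c j, (s j : ℝ) ≤ r c * 2 ^ g c (s j))
    {t : Fin n → ℝ} (ht : ∀ j, 0 ≤ t j) (j : Fin n) :
    psn s φ r M g ℓ t j + s j ≤ ((φ j : ℕ) + 1) * ℓ := by
  obtain ⟨c1, c2, c3, c4⟩ := h_CON (M (φ j)) (lev s (g (φ j))) (PP φ (φ j)) (ext t)
    (sec hs M g hM hg hd (φ j)) (ext_nonneg ht)
  have h3 := c3 j
  have hb' : blk s φ M g t j = Bk (M (φ j)) (lev s (g (φ j))) (PP φ (φ j)) (ext t) j := rfl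
  rw [← hb', lev_val] at h3
  unfold psn
  rw [Nat.add_assoc, Nat.add_mul, Nat.one_mul]
  apply Nat.add_le_add_left
  have h5 : (((blk s φ M g t j : ℝ) + 1) * 2 ^ g (φ j) (s j)) ≤ (M (φ j) : ℝ) := by exact_mod_cast h3
  have h6 := hr (φ j)
  have h7 := hw (φ j) j
  have h8 := hrM (φ j)
  have h9 : ⌊r (φ j) * ((2 : ℝ) ^ g (φ j) (s j) * (blk s φ M g t j : ℝ))⌋₊ + s j ≤ ⌊(ℓ : ℝ)⌋₊ := by
    apply flo (by positivity)
    nlinarith [mul_le_mul_of_nonneg_left h5 h6.le]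
  rwa [Nat.floor_natCast] at h9

/-- the bound for the start -/
theorem bound (h_LOD : S_LOD) {n k : ℕ} {s : Fin n → ℕ} {φ : Fin n → Fin k}
    {M : Fin k → ℕ} {g : Fin k → ℕ → ℕ} (hs : Antitone s)
    (hM : ∀ c, 0 < M c) (hg : ∀ c, Monotone (g c)) (hd : ∀ c j, 2 ^ g c (s j) ∣ M c)
    {t : Fin n → ℝ} (ht : ∀ j, 0 ≤ t j) (j : Fin n) :
    sta s φ M g t j ≤ ld (fun j c => 2 ^ g c (s j) * t j / M c) φ (φ j) := by
  classical
  have h := h_LOD (M (φ j)) (lev s (g (φ j))) (PP φ (φ j)) (ext t)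
    (sec hs M g hM hg hd (φ j)) (ext_nonneg ht) j
  have hM0 : (0 : ℝ) < M (φ j) := by exact_mod_cast hM (φ j)
  have h2 : sta s φ M g t j ≤
      (∑ i ∈ (range j).filter (PP φ (φ j)), 2 ^ lev s (g (φ j)) i * ext t i) / M (φ j) := by
    rw [le_div_iff₀ hM0]
    unfold sta
    calc _ = (M (φ j) : ℝ) * St (M (φ j)) (lev s (g (φ j))) (PP φ (φ j)) (ext t) j := by ring
      _ ≤ _ := by
        refine le_trans h (le_of_eq ?_)
        refine Finset.sum_congr ?_ fun _ _ => rfl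
        ext x
        simp only [Finset.mem_filter]
  refine le_trans h2 ?_
  unfold ld
  rw [Finset.sum_div]
  have hsub : ((range j).filter (PP φ (φ j))) ⊆
      ((univ : Finset (Fin n)).filter fun i => φ i = φ j).map Fin.valEmbedding := by
    intro x hx
    rw [Finset.mem_filter] at hx
    obtain ⟨hx1, hxn, hx2⟩ := hx
    rw [Finset.mem_map]
    exact ⟨⟨x, hxn⟩, by simp [hx2], rfl⟩
  calc ∑ i ∈ (range j).filter (PP φ (φ j)), 2 ^ lev s (g (φ j)) i * ext t i / (M (φ j) : ℝ)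
      ≤ ∑ i ∈ ((univ : Finset (Fin n)).filter fun i => φ i = φ j).map Fin.valEmbedding,
          2 ^ lev s (g (φ j)) i * ext t i / (M (φ j) : ℝ) := by
        refine Finset.sum_le_sum_of_subset_of_nonneg hsub ?_
        intro i _ _
        have := ext_nonneg ht i
        positivity
    _ = _ := by
        rw [Finset.sum_map]
        refine Finset.sum_congr rfl fun i _ => ?_
        simp only [Fin.valEmbedding_apply]
        rw [ext_val, lev_val]

end RULaux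

open RULaux in
theorem x_RUL (h_CON : S_CON) (h_LOD : S_LOD) (h_NON : S_NON) : S_RUL := by
  intro m n k ℓ s φ r M g hk hkl hs hr hM hrM hg hd hw
  have sect : ∀ c : Fin k, ((c : ℕ) + 1) * ℓ ≤ k * ℓ := fun c => Nat.mul_le_mul_right _ c.isLt
  refine ⟨⟨fun t => ⟨sta s φ M g t, psn s φ r M g ℓ t⟩, ?_, ?_⟩, ?_⟩
  · intro t ht
    refine ⟨?_, ?_, ?_⟩
    · intro j
      exact (h_CON (M (φ j)) (lev s (g (φ j))) (PP φ (φ j)) (ext t)
        (sec hs M g hM hg hd (φ j)) (ext_nonneg ht)).1 j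
    · intro j
      exact le_trans (inside h_CON hs hr hM hrM hg hd hw ht j) (le_trans (sect _) hkl)
    · intro i j hij τ h1 h2 h3 h4
      simp only at h1 h2 h3 h4 ⊢
      have hin := fun j => inside (φ := φ) h_CON hs hr hM hrM hg hd hw ht j
      have low : ∀ j, (φ j : ℕ) * ℓ ≤ psn s φ r M g ℓ t j := fun j => Nat.le_add_right _ _
      rcases lt_trichotomy (φ i) (φ j) with hc | hc | hc
      · left
        refine le_trans (hin i) (le_trans ?_ (low j))
        exact Nat.mul_le_mul_right _ hc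
      · have hne : (i : ℕ) ≠ j := fun h => hij (Fin.ext h)
        rcases lt_or_gt_of_ne hne with h | h
        · exact same h_CON hs hr hM hg hd hw ht h hc h3 h2
        · exact (same h_CON hs hr hM hg hd hw ht h hc.symm h1 h4).symm
      · right
        refine le_trans (hin j) (le_trans ?_ (low i))
        exact Nat.mul_le_mul_right _ hc
  · intro t t' ht ht' τ h1 h2 j
    simp only at h1 h2 ⊢
    have h := h_NON (M (φ j)) (lev s (g (φ j))) (PP φ (φ j)) (ext t) (ext t') τ (hM (φ j))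
      (ext_nonneg ht) (ext_nonneg ht') ?_ ?_ j
    · refine ⟨fun hj => ?_, h.2⟩
      obtain ⟨e1, e2⟩ := h.1 hj
      refine ⟨e1, ?_⟩
      unfold psn blk
      rw [e2]
    · rintro i ⟨hi, hc⟩ hlt
      have h3 := h1 ⟨i, hi⟩
      unfold sta at h3
      rw [hc] at h3
      have e : ext t i = t ⟨i, hi⟩ := ext_val t ⟨i, hi⟩
      have e' : ext t' i = t' ⟨i, hi⟩ := ext_val t' ⟨i, hi⟩
      rw [e, e']
      rw [e] at hlt
      exact h3 hlt
    · rintro i ⟨hi, hc⟩ hlt hle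
      have h3 := h2 ⟨i, hi⟩
      unfold sta at h3
      rw [hc] at h3
      have e : ext t i = t ⟨i, hi⟩ := ext_val t ⟨i, hi⟩
      have e' : ext t' i = t' ⟨i, hi⟩ := ext_val t' ⟨i, hi⟩
      rw [e']
      rw [e] at hle
      exact h3 hlt hle
  · intro t T ht hT htT
    unfold makespan
    simp only
    have hnn : ∀ c, 0 ≤ ld (fun j c => (2 : ℝ) ^ g c (s j) * t j / M c) φ c := by
      intro c
      unfold ld
      refine Finset.sum_nonneg fun j _ => ?_
      have := ht j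
      positivity
    have hbd : BddAbove (Set.range fun c => ld (fun j c => (2 : ℝ) ^ g c (s j) * t j / M c) φ c) :=
      Set.Finite.bddAbove (Set.finite_range _)
    have hsup : ∀ c, ld (fun j c => (2 : ℝ) ^ g c (s j) * t j / M c) φ c ≤
        ⨆ c, ld (fun j c => (2 : ℝ) ^ g c (s j) * t j / M c) φ c := fun c => le_ciSup hbd c
    have h0 : 0 ≤ (⨆ c, ld (fun j c => (2 : ℝ) ^ g c (s j) * t j / M c) φ c) + T :=
      add_nonneg (le_trans (hnn ⟨0, hk⟩) (hsup ⟨0, hk⟩)) hT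
    refine Real.iSup_le (fun j => ?_) h0
    exact add_le_add (le_trans (bound h_LOD hs hM hg hd ht j) (hsup (φ j))) (htT j)

end Pool.Agent.BSR
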