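import Pool.Agent.BSR.Defs

/-!
# Randomised non-clairvoyant scheduling on a linear array (MP_e25616_lc): statements of the modules   (helper80)

THEOREM (`S_MAI`). For narrow jobs (`s j ≤ β m`) there is a randomised batch-style algorithm with expected
makespan at most `(1 + 2 log 2 + ε) OPT` (about `2.387`; the best known ratio is `2.5`).

IDEA. The machines are divided into `k` sections of `ℓ = ⌊m/k⌋` machines. In the section `c` the widths are
rounded up to the sizes `rs k c * 2 ^ i`, `rs k c = 2 ^ (c/k)`; the blocks of these sizes form a binary tree, and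
if the jobs are started in the order of decreasing widths (list scheduling) no unit of the section is ever
idle before the last start. Every job chooses its section at random, independently, with probabilities
proportional to `M c / 2 ^ (level)`, which depend only on its width; then all sections have the same expected
load, and the rounding loss is the harmonic mean over the scales, `2 k (2 ^ (1/k) - 1) → 2 log 2`. The jobs
are narrow, so every job is a small part of the load, and Chebyshev gives the maximum over the sections.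

Conventions: every module proves `theorem x_XXX : S_XXX`, or `theorem x_XXX (h1 : S_YYY) … : S_XXX` when it uses
other modules. You may use more or fewer hypotheses. All modules are independent.
-/

set_option autoImplicit false

namespace Pool.Agent.BSR

open Finset

/-- **MN.** Basic facts. `⨅` over the finite nonempty type `Fin M` is attained (`exists_eq_ciInf_of_finite`), so the set in
`am` is not empty (`Nat.sInf_mem`). `stp`: `mn M f + x ≥ mn M f`; for the last part note that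
`f u = mn M f` on the whole block by `hcon`, so nothing decreases. -/
def S_MN : Prop := ∀ (M : ℕ) (f : ℕ → ℝ), 0 < M →
  (∀ u, u < M → mn M f ≤ f u) ∧ am M f < M ∧ f (am M f) = mn M f ∧
  (∀ x : ℝ, (∀ u, u < M → x ≤ f u) → x ≤ mn M f) ∧
  ∀ (i : ℕ) (x : ℝ), 0 ≤ x → (∀ u v, u / 2 ^ i = v / 2 ^ i → f u = f v) →
    ∀ u, f u ≤ stp M f i x u

/-- **CON.** One section (uses `S_MN`). Claim: for all `j` the function `fr j` is constant on the blocks of level `lv j`, even of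
every level `i ≤ lv i'` for all `i' < j`: it is constant on the blocks of level `l` for every `l` with `l ≤ lv i` for all
`i < j` (induction on `j`: `stp` changes a whole block of level `lv j`, which is a union of blocks of level `l`:
`Nat.div_div_eq_div_mul`; the function `fr 0` is constant). So all units of the block of the job `j` are free at `St j`, and `fr` is
nondecreasing in `j` (`S_MN`). (1) `0 ≤ fr 0`, `fr` is nondecreasing in `j`, so `mn` is. (2) the block of level `lv j` which contains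
`am < M` lies in `[0, M)` as `2 ^ lv j ∣ M`. (3) Let `i < j`, `P i`, and `Bk j / 2 ^ (lv i - lv j) = Bk i`, i.e. the block of `j` lies in the
block of `i`: then `u = am (fr j)` has `u / 2 ^ lv i = Bk i` (`u / 2 ^ lv i = u / 2 ^ lv j / 2 ^ (lv i - lv j)`), so
`fr (i + 1) u = St i + t i` and `St j = fr j u ≥ fr (i + 1) u`. -/
def S_CON : Prop := ∀ (M : ℕ) (lv : ℕ → ℕ) (P : ℕ → Prop) (t : ℕ → ℝ), Sec M lv →
  (∀ j, 0 ≤ t j) →
  (∀ j, 0 ≤ St M lv P t j) ∧ (∀ i j, i ≤ j → St M lv P t i ≤ St M lv P t j) ∧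
  (∀ j, (Bk M lv P t j + 1) * 2 ^ lv j ≤ M) ∧
  ∀ i j, i < j → P i → Bk M lv P t j / 2 ^ (lv i - lv j) = Bk M lv P t i →
    St M lv P t i + t i ≤ St M lv P t j

open Classical in
/-- **LOD.** The load (uses `S_MN`). As in `S_CON`, `fr j` is constant on the blocks of level `lv j` (prove it again or
ask). Claim: `∑_{u < M} fr j u = ∑_{i < j, P i} 2 ^ (lv i) t i`: the job `j` changes exactly the `2 ^ lv j` units of its block, from
`mn` (all of them have the value `fr j (am) = mn`) to `mn + t j`; the block lies in `[0, M)`. Then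
`M * mn ≤ ∑_{u < M} fr j u`. -/
def S_LOD : Prop := ∀ (M : ℕ) (lv : ℕ → ℕ) (P : ℕ → Prop) (t : ℕ → ℝ), Sec M lv →
  (∀ j, 0 ≤ t j) → ∀ j, M * St M lv P t j ≤ ∑ i ∈ (range j).filter P, 2 ^ lv i * t i

/-- **NON.** Non-anticipation of one section (uses `S_MN`). Write `f = fr t j`, `f' = fr t' j`. Claim, by induction on `j`: for all
`u < M`: `f u = f' u` or (`τ ≤ f u` and `τ ≤ f' u`). Consequences of the claim: if `mn f < τ` then `mn f' = mn f` and `am f' = am f` (`f u < τ` or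
`f' u < τ` imply `f u = f' u`, so the sets in the definition of `am` are equal); if `τ ≤ mn f` then `τ ≤ mn f'`. Step, `P j`: if
`mn f < τ`, then the block is the same, its new values are `mn f + t j` and `mn f + t' j`; these are equal if
`mn f + t j < τ`, and both are `≥ τ` otherwise. If `τ ≤ mn f` then all values `f u`, `f' u` and all new values are `≥ τ`. The
conclusions are the consequences for `j`. -/
def S_NON : Prop := ∀ (M : ℕ) (lv : ℕ → ℕ) (P : ℕ → Prop) (t t' : ℕ → ℝ) (τ : ℝ), 0 < M →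
  (∀ j, 0 ≤ t j) → (∀ j, 0 ≤ t' j) →
  (∀ j, P j → St M lv P t j + t j < τ → t' j = t j) →
  (∀ j, P j → St M lv P t j < τ → τ ≤ St M lv P t j + t j → τ ≤ St M lv P t j + t' j) →
  ∀ j, (St M lv P t j < τ →
      St M lv P t' j = St M lv P t j ∧ Bk M lv P t' j = Bk M lv P t j) ∧
    (τ ≤ St M lv P t j → τ ≤ St M lv P t' j)

/-- **RUL.** The rule for an assignment `φ` of the jobs to the sections (uses `S_CON`, `S_LOD`, `S_NON`). The jobs are sorted
(`Antitone s`). For the section `c` let `lv c j = g c (s j)` for `j < n` and `0` otherwise, `P c j` iff `j < n` and `φ j = c`, and extend `t` by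
`0`. `Sec (M c) (lv c)`: `g c` is monotone and `s` antitone. `run t`: `start j = St (M c) (lv c) (P c) t j` and
`pos j = c ℓ + ⌊r c (2 ^ lv B)⌋₊` with `c = φ j`, `B = Bk … j`. The block corresponds to the real interval `[x, x + L)`,
`x = r c 2 ^ lv B`, `L = r c 2 ^ lv ≥ s j`; `⌊x⌋ + s j ≤ ⌊x + L⌋` (`s j` is an integer). (a) Inside the section: `x + L ≤ r c M c ≤ ℓ` (third
part of `S_CON`), so `⌊x⌋ + s j ≤ ℓ`; `k ℓ ≤ m`. (b) Two jobs `i < j` in different sections use different machines. In the same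
section: `lv j ≤ lv i`. If the block of `j` lies in the block of `i` then `start i + t i ≤ start j`: not at the same time. Otherwise
the blocks are disjoint, `(B i + 1) 2 ^ lv i ≤ B j 2 ^ lv j` or `(B j + 1) 2 ^ lv j ≤ B i 2 ^ lv i` (compare
`B j / 2 ^ (lv i - lv j)` with `B i`), and so are the machines, by monotonicity of the floor. (c) Non-anticipation: `S_NON` in every section.
(d) Makespan: `start j ≤ (∑_{i < j, φ i = c} 2 ^ g c (s i) t i) / M c ≤ ⨆ …` (`S_LOD`). If `n = 0`: the supremum over the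
empty type is `0`. -/
def S_RUL : Prop := ∀ (m n k ℓ : ℕ) (s : Fin n → ℕ) (φ : Fin n → Fin k) (r : Fin k → ℝ)
  (M : Fin k → ℕ) (g : Fin k → ℕ → ℕ), 0 < k → k * ℓ ≤ m → Antitone s → (∀ c, 0 < r c) →
  (∀ c, 0 < M c) → (∀ c, r c * M c ≤ ℓ) → (∀ c, Monotone (g c)) →
  (∀ c j, 2 ^ g c (s j) ∣ M c) → (∀ c j, (s j : ℝ) ≤ r c * 2 ^ g c (s j)) →
  ∃ A : Rule m s, ∀ (t : Fin n → ℝ) (T : ℝ), (∀ j, 0 ≤ t j) → 0 ≤ T → (∀ j, t j ≤ T) →
    makespan t (A.run t) ≤ (⨆ c, ld (fun j c => 2 ^ g c (s j) * t j / M c) φ c) + T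

/-- **PRS.** `∑_φ ∏_j p j (φ j) = ∏_j ∑_c p j c = 1` (`Finset.prod_univ_sum` / `Fintype.piFinset_univ`, or
`Finset.sum_prod_piFinset`). The same for functions of one or two coordinates: for `F : Fin k → ℝ`,
`∑_φ pr p φ * F (φ i) = ∑_c p i c * F c` (replace the factor `p i c` by `p i c * F c`), and for `i ≠ i'`,
`∑_φ pr p φ * (F (φ i) * G (φ i')) = (∑_c p i c * F c) * (∑_c p i' c * G c)`. -/
def S_PRS : Prop := ∀ (n k : ℕ) (p : Fin n → Fin k → ℝ), (∀ j, ∑ c, p j c = 1) →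
  ∑ φ, pr p φ = 1 ∧
  (∀ (i : Fin n) (F : Fin k → ℝ), ∑ φ, pr p φ * F (φ i) = ∑ c, p i c * F c) ∧
  ∀ (i i' : Fin n) (F G : Fin k → ℝ), i ≠ i' →
    ∑ φ, pr p φ * (F (φ i) * G (φ i')) = (∑ c, p i c * F c) * ∑ c, p i' c * G c

/-- **VAR.** The expected maximum of the loads (uses `S_PRS`). Let `X_c = ld x φ c = ∑_j x j c [φ j = c]`. `E X_c = μ`,
`E (X_c - μ)² = ∑_j (x j c)² p j c (1 - p j c) ≤ D ∑_j x j c p j c = D μ` (write `X_c - μ = ∑_j (x j c [φ j = c] - x j c p j c)`, a sum of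
independent centred terms: `S_PRS` for `F c' = x j c ([c' = c] - p j c)`). For every `φ`:
`⨆_c X_c ≤ μ + √(∑_c (X_c - μ)²)`. Finally `E √Y ≤ √(E Y)` (Cauchy-Schwarz, `∑_φ pr = 1`; or
`Real.inner_le_nnorm_mul_nnorm`, `Finset.sum_mul_sq_le_sq_mul_sq` with `√pr` and `√pr √Y`). -/
def S_VAR : Prop := ∀ (n k : ℕ) (p x : Fin n → Fin k → ℝ) (D μ : ℝ), 0 < k →
  (∀ j c, 0 ≤ p j c) → (∀ j, ∑ c, p j c = 1) → (∀ j c, 0 ≤ x j c ∧ x j c ≤ D) → 0 ≤ D →
  (∀ c, ∑ j, p j c * x j c = μ) →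
  ∑ φ, pr p φ * (⨆ c, ld x φ c) ≤ μ + √(k * D * μ)

/-- **GLB.** Levels. The set `{i | w ≤ rs k c * 2 ^ i}` is not empty (`rs ≥ 1`, `2 ^ i` unbounded) and closed upwards. `1 ≤ rs k c < 2`
for `c < k`. (4) If `gl = 0` then `rs k c * 2 ^ 0 < 2 ≤ 2 w`; otherwise `gl - 1` is not in the set. (5) `rs k c * 2 ^ H ≥ 2 ^ H ≥ w`. -/
def S_GLB : Prop := ∀ k c : ℕ, c < k → 1 ≤ rs k c ∧ rs k c < 2 ∧
  (∀ w : ℕ, (w : ℝ) ≤ rs k c * 2 ^ gl k c w) ∧ Monotone (gl k c) ∧
  (∀ w : ℕ, 1 ≤ w → rs k c * 2 ^ gl k c w < 2 * w) ∧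
  ∀ w H : ℕ, w ≤ 2 ^ H → gl k c w ≤ H

/-- **GRD.** The harmonic mean over the scales (uses `S_GLB`). Put `e_c = c + k gl k c w`, so
`rs k c * 2 ^ gl = 2 ^ (e_c / k) ∈ [w, 2 w)`. The `e_c` are distinct (they are `≡ c` mod `k`) and lie in
`[k log₂ w, k log₂ w + k)`, so they are the integers `a, a + 1, …, a + k - 1` with `a = ⌈k log₂ w⌉` (a set of `k` elements of an interval
with `k` elements). `∑_{e = a}^{a + k - 1} 2 ^ (-e/k) = 2 ^ (-a/k) / (2 (1 - 2 ^ (-1/k)))` (geometric sum), and `2 ^ (a/k) < w 2 ^ (1/k)`. -/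
def S_GRD : Prop := ∀ k w : ℕ, 0 < k → 1 ≤ w →
  1 / (2 * w * ((2 : ℝ) ^ (1 / (k : ℝ)) - 1)) ≤
    ∑ c ∈ range k, 1 / (rs k c * 2 ^ gl k c w)

/-- **LIM.** `k (2 ^ (1/k) - 1) → log 2` (derivative of `x ↦ 2 ^ x` at `0`). -/
def S_LIM : Prop := ∀ ε : ℝ, 0 < ε → ∃ k : ℕ, 0 < k ∧ Kk k ≤ 2 * Real.log 2 + ε

/-- **ARE.** Lower bounds for the optimum. There is a feasible schedule (start `j` at `∑_{i < j} t i`, position `0`), so it suffices to
bound the makespan `X` of a feasible schedule `σ` from below (`le_csInf`). `t j ≤ start j + t j ≤ X` (`le_ciSup`, finite type).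
Area: for every `τ` the jobs running at `τ` (`start j ≤ τ < start j + t j`) use disjoint sets of machines
(`Finset.Ico (pos j) (pos j + s j)`) inside `[0, m)`, so `∑_{j running at τ} s j ≤ m`. Integrate over `τ ∈ [0, X]`:
`∑_j s j t j = ∫ ∑_j s j 1_{[start j, start j + t j)}(τ) dτ ≤ m X`. -/
def S_ARE : Prop := ∀ (m n : ℕ) (s : Fin n → ℕ) (t : Fin n → ℝ), (∀ j, s j ≤ m) →
  (∀ j, 0 ≤ t j) → 0 ≤ OPT m s t ∧ (∀ j, t j ≤ OPT m s t) ∧
    ∑ j, (s j : ℝ) * t j ≤ m * OPT m s t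

/-- **REL.** Relabelling of the jobs. From a schedule `σ` for `s ∘ π`, `t ∘ π` one gets the schedule
`⟨fun j => σ.start (π.symm j), fun j => σ.pos (π.symm j)⟩` for `s`, `t`, with the same makespan (`Equiv.iSup_comp`), and conversely. -/
def S_REL : Prop := ∀ (m n : ℕ) (s : Fin n → ℕ) (π : Equiv.Perm (Fin n)) (c : ℝ),
  Good m (s ∘ π) c → Good m s c

/-- **NUM.** The numbers of units. `ℓ = m / k` (natural division), `H` minimal with `W ≤ 2 ^ H`, so `2 ^ H < 2 W`;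
`Q = ⌊ℓ / (rs k c 2 ^ H)⌋₊`, `M c = Q 2 ^ H`. `rs k c 2 ^ H < 4 W` and `ℓ ≥ m/k - 1 ≥ m/(2k) ≥ 4 N₀ W` (as `m ≥ 8 k N₀ W ≥ 2 k`), so `Q ≥ N₀`
and `rs k c 2 ^ H ≤ ℓ / N₀`. Then `rs k c M c ≥ ℓ - rs k c 2 ^ H ≥ ℓ (1 - 1/N₀)`, `ℓ ≥ m/k - 1 ≥ (m/k)(1 - 1/N₀)` (`k/m ≤ 1/N₀`). -/
def S_NUM : Prop := ∀ m k N₀ W : ℕ, 0 < k → 0 < N₀ → 1 ≤ W → 8 * k * N₀ * W ≤ m →
  ∃ (ℓ H : ℕ) (Q : ℕ → ℕ), k * ℓ ≤ m ∧ W ≤ 2 ^ H ∧ ∀ c, c < k → N₀ ≤ Q c ∧
    rs k c * ((Q c * 2 ^ H : ℕ) : ℝ) ≤ ℓ ∧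
    (m : ℝ) / k * (1 - 1 / N₀) ^ 2 ≤ rs k c * ((Q c * 2 ^ H : ℕ) : ℝ)

/-- **COR.** The theorem for sorted jobs (uses `S_RUL`, `S_PRS`, `S_VAR`, `S_GLB`, `S_GRD`, `S_ARE`, `S_NUM`). Let `ℓ, H, Q` be from `S_NUM`,
`M c = Q c 2 ^ H`, `r c = rs k c`, `g c = gl k c` (`S_GLB`: `g c (s j) ≤ H`). `Z j = ∑_c M c / 2 ^ g c (s j)`, `p j c = (M c / 2 ^ g c (s j)) / Z j`,
`Ω = Fin n → Fin k`, weight `pr p`, `A φ` from `S_RUL`. Fix `t ≥ 0`, `O = OPT`, `x j c = 2 ^ g c (s j) t j / M c`, so `p j c x j c = t j / Z j` and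
`μ = ∑_j t j / Z j`. With `θ = (1 - 1/N₀)²`: `M c ≥ (m/k) θ / r c`, so
`Z j ≥ (m/k) θ ∑_c 1/(r c 2 ^ g c (s j)) ≥ (m/k) θ / (2 s j (2 ^ (1/k) - 1))` (`S_GRD`), i.e. `1/Z j ≤ (Kk k / θ) s j / m`, and
`μ ≤ (Kk k / θ) O` (`S_ARE`). `x j c ≤ t j 2 ^ H / M c = t j / Q c ≤ O / N₀ = D`. By `S_RUL` (`T = O`) and `S_VAR` the expected makespan is at most
`μ + √(k D μ) + O ≤ (1 + K + √(k K / N₀)) O` with `K = Kk k / θ`. -/
def S_COR : Prop := ∀ (m n k N₀ W : ℕ) (s : Fin n → ℕ), 0 < k → 2 ≤ N₀ → 1 ≤ W →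
  8 * k * N₀ * W ≤ m → Antitone s → (∀ j, 1 ≤ s j ∧ s j ≤ W) →
  Good m s (1 + Kk k / (1 - 1 / N₀) ^ 2 + √(k * (Kk k / (1 - 1 / N₀) ^ 2) / N₀))

/-- **MAI.** The theorem (uses `S_COR`, `S_REL`, `S_LIM`, `S_ARE`). `k` from `S_LIM` for `ε/4`; for `N₀ → ∞` the number
`1 + Kk k/(1 - 1/N₀)² + √(k (Kk k/(1 - 1/N₀)²)/N₀)` tends to `1 + Kk k ≤ 1 + 2 log 2 + ε/4`: fix `N₀`, `β = 1/(8 k N₀)`. `n = 0`: one rule,
makespan `0`, `OPT ≥ 0`. `n ≥ 1`: `W = max s j` (`Finset.exists_max_image`), `8 k N₀ W ≤ m`. Sort: `Tuple.sort` for `OrderDual.toDual ∘ s` gives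
`π` with `s ∘ π` antitone; `S_COR` for `s ∘ π`, `S_REL`, and monotonicity of `Good` in `c` (`OPT ≥ 0`). -/
def S_MAI : Prop := ∀ ε : ℝ, 0 < ε → ∃ β : ℝ, 0 < β ∧ ∀ (m n : ℕ) (s : Fin n → ℕ),
  (∀ j, 1 ≤ s j ∧ (s j : ℝ) ≤ β * m) → Good m s (1 + 2 * Real.log 2 + ε)

end Pool.Agent.BSR
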