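import Pool.Agent.BSR.Stmts

set_option autoImplicit false

namespace Pool.Agent.BSR

open Finset

namespace VARaux

/-- the centred contribution of the job `j` to the load of the section `c` -/
def ac {n k : ℕ} (p x : Fin n → Fin k → ℝ) (j : Fin n) (c c' : Fin k) : ℝ :=
  x j c * ((if c' = c then 1 else 0) - p j c)

theorem ld_sub {n k : ℕ} (p x : Fin n → Fin k → ℝ) (μ : ℝ) (c : Fin k)
    (hμ : ∑ j, p j c * x j c = μ) (φ : Fin n → Fin k) :
    ld x φ c - μ = ∑ j, ac p x j c (φ j) := by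
  rw [← hμ]
  unfold ld ac
  rw [Finset.sum_filter, ← Finset.sum_sub_distrib]
  refine Finset.sum_congr rfl fun j _ => ?_
  by_cases h : φ j = c
  · simp [h]; ring
  · simp [h]; ring

theorem ac_mean {n k : ℕ} (p x : Fin n → Fin k → ℝ) (j : Fin n) (c : Fin k)
    (hp : ∑ c', p j c' = 1) : ∑ c', p j c' * ac p x j c c' = 0 := by
  have h1 : ∀ c', p j c' * ac p x j c c' =
      x j c * (if c' = c then p j c' else 0) - x j c * p j c * p j c' := by
    intro c'
    unfold ac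
    by_cases h : c' = c
    · simp [h]; ring
    · simp [h]; ring
  simp_rw [h1]
  rw [Finset.sum_sub_distrib, ← Finset.mul_sum, ← Finset.mul_sum, hp]
  simp

theorem ac_sq {n k : ℕ} (p x : Fin n → Fin k → ℝ) (D : ℝ) (j : Fin n) (c : Fin k)
    (hp0 : ∀ c, 0 ≤ p j c) (hp : ∑ c', p j c' = 1) (hx0 : 0 ≤ x j c) (hxD : x j c ≤ D) :
    ∑ c', p j c' * (ac p x j c c' * ac p x j c c') ≤ D * (p j c * x j c) := by
  have h1 : ∀ c', p j c' * (ac p x j c c' * ac p x j c c') =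
      (x j c ^ 2 * (1 - 2 * p j c)) * (if c' = c then p j c' else 0)
        + (x j c ^ 2 * p j c ^ 2) * p j c' := by
    intro c'
    unfold ac
    by_cases h : c' = c
    · simp [h]; ring
    · simp [h]; ring
  simp_rw [h1]
  rw [Finset.sum_add_distrib, ← Finset.mul_sum, ← Finset.mul_sum, hp]
  have h2 : (∑ c', if c' = c then p j c' else 0) = p j c := by simp
  rw [h2]
  have h3 : 0 ≤ p j c := hp0 c
  have h4 : x j c ^ 2 * (1 - 2 * p j c) * p j c + x j c ^ 2 * p j c ^ 2 * 1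
      = x j c * (p j c * x j c) - (x j c * p j c) ^ 2 := by ring
  rw [h4]
  have h5 : x j c * (p j c * x j c) ≤ D * (p j c * x j c) :=
    mul_le_mul_of_nonneg_right hxD (mul_nonneg h3 hx0)
  have h6 : 0 ≤ (x j c * p j c) ^ 2 := sq_nonneg _
  linarith

theorem pr_nonneg {n k : ℕ} (p : Fin n → Fin k → ℝ) (hp0 : ∀ j c, 0 ≤ p j c)
    (φ : Fin n → Fin k) : 0 ≤ pr p φ := by
  unfold pr
  exact Finset.prod_nonneg fun j _ => hp0 j _

/-- the variance of the load of the section `c` -/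
theorem var_le (h_PRS : S_PRS) {n k : ℕ} (p x : Fin n → Fin k → ℝ) (D μ : ℝ)
    (hp0 : ∀ j c, 0 ≤ p j c) (hp : ∀ j, ∑ c, p j c = 1)
    (hx : ∀ j c, 0 ≤ x j c ∧ x j c ≤ D) (c : Fin k)
    (hμ : ∑ j, p j c * x j c = μ) :
    ∑ φ, pr p φ * (ld x φ c - μ) ^ 2 ≤ D * μ := by
  obtain ⟨-, hF1, hF2⟩ := h_PRS n k p hp
  have h1 : ∀ φ : Fin n → Fin k, pr p φ * (ld x φ c - μ) ^ 2 =
      ∑ i, ∑ i', pr p φ * (ac p x i c (φ i) * ac p x i' c (φ i')) := by
    intro φ
    rw [ld_sub p x μ c hμ φ, sq, Finset.sum_mul_sum, Finset.mul_sum]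
    refine Finset.sum_congr rfl fun i _ => ?_
    rw [Finset.mul_sum]
  simp_rw [h1]
  rw [Finset.sum_comm]
  have h2 : ∀ i : Fin n, ∑ φ : Fin n → Fin k,
      ∑ i', pr p φ * (ac p x i c (φ i) * ac p x i' c (φ i')) ≤ D * (p i c * x i c) := by
    intro i
    rw [Finset.sum_comm]
    have h3 : ∀ i' : Fin n, i' ≠ i →
        ∑ φ : Fin n → Fin k, pr p φ * (ac p x i c (φ i) * ac p x i' c (φ i')) = 0 := by
      intro i' hi'
      rw [hF2 i i' (ac p x i c) (ac p x i' c) (Ne.symm hi'), ac_mean p x i c (hp i), zero_mul]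
    rw [Finset.sum_eq_single i (fun i' _ hi' => h3 i' hi') (fun h => absurd (Finset.mem_univ i) h)]
    rw [hF1 i (fun c' => ac p x i c c' * ac p x i c c')]
    exact ac_sq p x D i c (hp0 i) (hp i) (hx i c).1 (hx i c).2
  refine (Finset.sum_le_sum fun i _ => h2 i).trans ?_
  rw [← Finset.mul_sum, hμ]

end VARaux

open VARaux in
theorem x_VAR (h_PRS : S_PRS) : S_VAR := by
  intro n k p x D μ hk hp0 hp hx _hD hμ
  have : Nonempty (Fin k) := ⟨⟨0, hk⟩⟩
  set Y : (Fin n → Fin k) → ℝ := fun φ => ∑ c, (ld x φ c - μ) ^ 2 with hY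
  have hY0 : ∀ φ, 0 ≤ Y φ := fun φ => Finset.sum_nonneg fun c _ => sq_nonneg _
  have hw : ∀ φ, 0 ≤ pr p φ := fun φ => pr_nonneg p hp0 φ
  have hsup : ∀ φ : Fin n → Fin k, (⨆ c, ld x φ c) ≤ μ + √(Y φ) := by
    intro φ
    refine ciSup_le fun c => ?_
    have h1 : (ld x φ c - μ) ^ 2 ≤ Y φ :=
      Finset.single_le_sum (f := fun c => (ld x φ c - μ) ^ 2) (fun c _ => sq_nonneg _)
        (Finset.mem_univ c)
    have h2 : ld x φ c - μ ≤ √(Y φ) :=
      (le_abs_self _).trans (Real.abs_le_sqrt h1)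
    linarith
  have hsum : ∑ φ, pr p φ = 1 := (h_PRS n k p hp).1
  have hEY : ∑ φ, pr p φ * Y φ ≤ k * D * μ := by
    have h1 : ∑ φ, pr p φ * Y φ = ∑ c, ∑ φ, pr p φ * (ld x φ c - μ) ^ 2 := by
      rw [Finset.sum_comm]
      refine Finset.sum_congr rfl fun φ _ => ?_
      simp only [hY]
      rw [Finset.mul_sum]
    rw [h1]
    refine (Finset.sum_le_sum fun c _ => var_le h_PRS p x D μ hp0 hp hx c (hμ c)).trans ?_
    rw [Finset.sum_const, Finset.card_univ, Fintype.card_fin, nsmul_eq_mul, mul_assoc]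
  have hcs : ∑ φ, pr p φ * √(Y φ) ≤ √(k * D * μ) := by
    have h1 := Real.sum_sqrt_mul_sqrt_le (Finset.univ : Finset (Fin n → Fin k))
      (f := fun φ => pr p φ) (g := fun φ => pr p φ * Y φ) hw
      (fun φ => mul_nonneg (hw φ) (hY0 φ))
    rw [hsum, Real.sqrt_one, one_mul] at h1
    have h2 : ∀ φ, √(pr p φ) * √(pr p φ * Y φ) = pr p φ * √(Y φ) := by
      intro φ
      rw [Real.sqrt_mul (hw φ), ← mul_assoc, Real.mul_self_sqrt (hw φ)]
    simp_rw [h2] at h1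
    exact h1.trans (Real.sqrt_le_sqrt hEY)
  calc ∑ φ, pr p φ * (⨆ c, ld x φ c)
      ≤ ∑ φ, pr p φ * (μ + √(Y φ)) :=
        Finset.sum_le_sum fun φ _ => mul_le_mul_of_nonneg_left (hsup φ) (hw φ)
    _ = (∑ φ, pr p φ) * μ + ∑ φ, pr p φ * √(Y φ) := by
        rw [Finset.sum_mul, ← Finset.sum_add_distrib]
        refine Finset.sum_congr rfl fun φ _ => ?_
        ring
    _ ≤ μ + √(k * D * μ) := by
        rw [hsum, one_mul]
        linarith

end Pool.Agent.BSR
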